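import Pool.Agent.MP_ee8c61_ag.R3NC.TDefs
import Pool.Agent.MP_ee8c61_ag.R3IZ.RKit
import Pool.Agent.MP_ee8c61_ag.R3IZ.RBig

/-!
The reduction of the local primitives on a divisor exists; it vanishes on a divisor that is not
contracted.
-/

namespace Pool.Agent.MP_ee8c61_ag.N3.Q3IZ

open Pool.Agent.MP_ee8c61_ag.M3 Pool.Agent.MP_ee8c61_ag.Q3IZ Pool.Agent.MP_ee8c61_ag.Q3NC

set_option linter.unusedSectionVars false

variable [Base]

open H59 hiding pd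
open M3 M3E M3RESID M3F

theorem rowCls : OfCls := by
  intro hR hU hX f la c l β M U D L _ _ S o H hS hu
  have hB := (H.E.bas 3 f M H.ok).toBas1
  have ov := RKit.ov hB hS
  choose v0 hv0 using fun n => Pl.exists_Rs (RKit.lv H.ok hB H.cov hS hS.i0 (H.dx.x0 S.i0 n))
  have e3 : ip 3 f ∈ S.P.o.F 1 := by
    have h1 := v_f H.ok o
    have h3 := H.ok.pos o
    rw [← hS.po] at h1
    exact Or.inr (le_of_le_of_eq (by exact_mod_cast h3) h1.symm)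
  have hx : xx 3 l ∈ S.P.o.F 0 := ov (xp 3 l)
  have fs : Fs v0 := by
    obtain ⟨N, h⟩ := H.dx.f0 S.i0
    exact ⟨N, fun m hm => (hv0 m).uniq (h m hm ▸ Pl.Rs.zero)⟩
  obtain ⟨E, h1, h2, h3⟩ := hR L S.d S.C _ hu v0 fs fun n => by
      obtain ⟨p, hp⟩ := H.dx.e0 S.i0 n
      have m0 : ip 3 f * ip 3 p ∈ S.P.o.F 1 := by simpa using S.P.o.F_mul e3 (ov p)
      have m1 : sh (D.X0 S.i0) n (xx 3 l) ∈ S.P.o.F 0 ∧
          S.P.π (sh (D.X0 S.i0) n (xx 3 l)) = sh v0 n (S.P.π (xx 3 l)) := by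
        cases n with
        | zero => exact ⟨zero_mem _, S.P.π_zero⟩
        | succ n => exact ⟨(hv0 n).ap hx, (hv0 n).2 _ hx⟩
      rw [← hS.rd _ _ (hv0 n), eq_sub_of_add_eq hp, Pl.π_sub (S.P.o.F_anti (by omega) m0) m1.1,
        S.P.π_F1 m0, m1.2]
      ring
  refine ⟨E, h1, h2, fun r v hr hv => ?_⟩
  obtain ⟨γ, g1, g2, g3⟩ := H.dx.co S.i0 r
  obtain ⟨Θ, t1, t2⟩ := hX f la c l β M U D L S o H hS hu γ g1 fun n =>
    RKit.lgb H.ok hB H.cov hS hS.i0 hr (g2 n)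
  exact (hU L S.d S.C _ hu v0 E h3).2 v Θ t1 fun n => (hv n).uniq (g3 n ▸ (hv0 n).add (t2 n))

theorem rowBigN : OfBigN := by
  intro hU hX f la c l β M U D L _ _ S o H hS hu hb E hE
  have hB := (H.E.bas 3 f M H.ok).toBas1
  obtain ⟨Y, γ, g1, g2, g3, g4⟩ := H.dx.big o hS.top.1 hb S.i0
  obtain ⟨Θ, t1, t2⟩ := hX f la c l β M U D L S o H hS hu γ g1 fun n =>
    RKit.lgb H.ok hB H.cov hS hS.i0 hS.i0 (g2 n)
  have h0 : ∀ n, S.P.Rs (Y n) 0 := fun n => by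
    obtain ⟨w, hw⟩ := Pl.exists_Rs (RKit.lv H.ok hB H.cov hS hS.i0 fun m => (g4 n m).1)
    exact RBig.rs_zero H.ok hB H.cov hS.top hS.po hS.i0 hw (fun m => (g4 n m).2) ▸ hw
  exact (hU L S.d S.C _ hu _ E (hE.rd S.i0 _ hS.i0 fun n => g3 n ▸ (h0 n).add (t2 n))).1 0
    ⟨Θ, t1, fun n => by rw [ite_self]⟩

end Pool.Agent.MP_ee8c61_ag.N3.Q3IZ
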