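import Pool.Agent.MP_ee8c61_ag.R3NC.SDefs
import Pool.Agent.MP_ee8c61_ag.R3IZ.TDefs

/-!
Simple roots, double curves that are not complete: the statements on a model.
-/

namespace Pool.Agent.MP_ee8c61_ag.N3.Q3IZ

open Pool.Agent.MP_ee8c61_ag.M3 Pool.Agent.MP_ee8c61_ag.Q3IZ Pool.Agent.MP_ee8c61_ag.Q3NC

set_option linter.unusedSectionVars false

variable [Base]

open H59 hiding pd
open M3 M3E M3RESID M3F Pool.Agent.MP_cce4c9_lc.H87
open M3J (ex br)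
open M3Z (cmp Fl)

noncomputable section

/-- The bivector with coefficients `g` applied to the function `u`. -/
def lamv (e : Fin 3 → VF (KK 3)) (g : Fin 3 → KK 3) (u : KK 3) : VF (KK 3) :=
  g 0 • (e 2 u • e 1 - e 1 u • e 2) + g 1 • (e 0 u • e 2 - e 2 u • e 0) +
    g 2 • (e 1 u • e 0 - e 0 u • e 1)

theorem lamv_ap (e : Fin 3 → VF (KK 3)) (g : Fin 3 → KK 3) (u u' : KK 3) :
    lamv e g u u' = Lam e g u u' := by
  simp only [lamv, Lam, wg, Derivation.add_apply, Derivation.sub_apply, Derivation.smul_apply,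
    smul_eq_mul]
  ring

/-- The coefficients of the exact field of a one-form that depends on the parameter `ξ l`. -/
def crx (f : Po 3) (la : ℚ) (l : Fin 3) (γ : ℕ → Fin 3 → KK 3) (n : ℕ) : VF (KK 3) :=
  crl (dvf f la) (M3.co 3).D (γ n) + lamv (M3.co 3).D (sh γ n) (xx 3 l)

/-- The first two terms of the local primitives, as polynomials in `ξ l`. -/
structure DX (κ : Type) where
  X0 : κ → ℕ → VF (KK 3)
  X1 : κ → ℕ → VF (KK 3)

structure DX.OK {M : Mod 3} {U : Cov M} (D : DX U.κ) (f : Po 3) (la : ℚ) (c : ℂ) (l : Fin 3) :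
    Prop where
  f0 : ∀ i, Fs (D.X0 i)
  f1 : ∀ i, Fs (D.X1 i)
  x0 : ∀ i n m, U.L2 U.c0 i (D.X0 i n) m
  x1 : ∀ i n m, U.L2 U.c0 i (D.X1 i n) m
  e0 : ∀ i n, ∃ p : Po 3, (dvf f la).δ (D.X0 i n) + sh (D.X0 i) n (xx 3 l) = ip 3 f * ip 3 p
  e1 : ∀ i n, ∃ p : Po 3, (dvf f la).δ (D.X1 i n) + sh (D.X1 i) n (xx 3 l) +
    D.X0 i n (ip 3 f) / ip 3 f = (if n = 0 then algebraMap ℂ (KK 3) c else 0) + ip 3 f * ip 3 p
  co : ∀ i j, ∃ γ, Fs γ ∧ (∀ n, U.L1 U.c0 i j (γ n)) ∧ ∀ n, D.X0 j n = D.X0 i n + crx f la l γ n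
  big : ∀ o, M.ex la o = 0 → U.Big o → ∀ i, ∃ (Y : ℕ → VF (KK 3)) (γ : ℕ → Fin 3 → KK 3), Fs γ ∧
    (∀ n, U.L1 U.c0 i i (γ n)) ∧ (∀ n, D.X0 i n = Y n + crx f la l γ n) ∧
    ∀ n m, U.L2 U.c0 i (Y n) m ∧
      (M.S.lab (U.bb i) o ≠ some m → U.L2 (U.c0 + M.e o) i (Y n) m)

/-- The standing hypotheses. -/
structure Hn (f : Po 3) (la : ℚ) (c : ℂ) (l : Fin 3) (M : Mod 3) (U : Cov M) (D : DX U.κ) :
    Prop where
  E : EOut
  ok : M.OK f
  cov : U.OK la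
  dx : D.OK f la c l

section Flag

variable {L k : Type} [Field L] [Algebra ℂ L] [Field k] [Algebra ℂ k] {M : Mod 3}

/-- The field `E` is the reduction of all local primitives on the divisor. -/
structure Cls {U : Cov M} (D : DX U.κ) (l : Fin 3) (S : Sd L U.κ) (E : VF L) : Prop where
  kill : E (S.P.π (xx 3 l)) = 0
  dv : S.d.δ E = 0
  rd : ∀ r (v : ℕ → VF L), M.Gen S.P.o.O U.w (U.ρ r) → (∀ n, S.P.Rs (D.X0 r n) (v n)) →
    Rd S.d S.C (S.P.π (xx 3 l)) v E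

/-- A double curve of exponent zero on which `xx 3 l` is not constant. -/
structure Fn (f : Po 3) (la : ℚ) (U : Cov M) (l : Fin 3) (P : Pl (KK 3) L) (G : Pl L k)
    (o j : M.J) : Prop where
  fl : Fl f M P G o j
  t1 : U.Top la o
  t2 : U.Top la j
  nc : ∀ c : ℂ, Un (cmp P G.o.O) (xx 3 l - algebraMap ℂ _ c)

end Flag

/-- A statement about all divisors on which `xx 3 l` is not constant. -/
def AllN (p : ∀ {L : Type} [Field L] [Algebra ℂ L] (_ : Po 3) (_ : ℚ) (_ : Fin 3) {M : Mod 3}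
    {U : Cov M} (_ : DX U.κ) (_ : Sd L U.κ) (_ : M.J), Prop) : Prop :=
  ∀ (f : Po 3) (la : ℚ) (c : ℂ) (l : Fin 3) (β : Fin 3 → PX 3 (KK 3)) (M : Mod 3) (U : Cov M)
    (D : DX U.κ) (L : Type) [Field L] [Algebra ℂ L] (S : Sd L U.κ) (o : M.J), Hn f la c l M U D →
    S.OK f la β o → (∃ X : VF L, X (S.P.π (xx 3 l)) ≠ 0) → p f la l D S o

/-- A statement about all pairs of twin flags. -/
def AllW (p : ∀ {L L' k : Type} [Field L] [Algebra ℂ L] [Field L'] [Algebra ℂ L'] [Field k]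
    [Algebra ℂ k] (_ : ℂ) (_ : Fin 3) {M : Mod 3} {U : Cov M} (_ : DX U.κ) (_ : Sd L U.κ)
    (_ : Pl L k) (_ : Sd L' U.κ) (_ : Pl L' k) (_ _ : M.J), Prop) : Prop :=
  ∀ (f : Po 3) (la : ℚ) (c : ℂ) (l : Fin 3) (β : Fin 3 → PX 3 (KK 3)) (M : Mod 3) (U : Cov M)
    (D : DX U.κ) (L L' k : Type) [Field L] [Algebra ℂ L] [Field L'] [Algebra ℂ L'] [Field k]
    [Algebra ℂ k] (S : Sd L U.κ) (G : Pl L k) (S' : Sd L' U.κ) (G' : Pl L' k) (o j : M.J),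
    Hn f la c l M U D → S.OK f la β o → S'.OK f la β j → Fn f la U l S.P G o j →
    Fn f la U l S'.P G' j o → Tw M S.P G S'.P G' → p c l D S G S' G' o j

/-- The local primitives. -/
def TDatN : Prop := ∀ (f : Po 3) (la : ℚ) (b : Polynomial ℂ) (β : Fin 3 → PX 3 (KK 3))
  (Q : PX 3 (KK 3)) (M : Mod 3) (U : Cov M) (l : Fin 3), Q3.Hyp0 f b β Q →
  b.eval (-(la : ℂ)) = 0 → M.OK f → U.OK la →
  ∃ D : DX U.κ, D.OK f la (b.derivative.eval (-(la : ℂ))) l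

def OfDatN : Prop := EOut → TDatN

/-! ### One divisor -/

/-- Exact fields of logarithmic bivectors restrict to exact fields. -/
def TRx : Prop := AllN fun {L} _ _ f la l {_ _} _ S _ => ∀ γ : ℕ → Fin 3 → KK 3, Fs γ →
  (∀ n, LgB (M3.co 3) S.P.o (γ n)) → ∃ Θ : ℕ → L, Fs Θ ∧
    ∀ n, S.P.Rs (crx f la l γ n) (exx S.d S.C (S.P.π (xx 3 l)) Θ n)

/-- The reduction exists. -/
def TCls : Prop := AllN fun {_} _ _ _ _ l {_ _} D S _ => ∃ E, Cls D l S E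

def OfCls : Prop := SRed → SUq → TRx → TCls

/-- The reduction vanishes on a divisor that is not contracted. -/
def TBigN : Prop := AllN fun {_} _ _ _ _ l {_ U} D S o =>
  U.Big o → ∀ E, Cls D l S E → E = 0

def OfBigN : Prop := SUq → TRx → TBigN

/-! ### Flags -/

/-- The curve, and the restrictions of the fields of the lattice. -/
def TKitN : Prop := ∀ (f : Po 3) (la : ℚ) (l : Fin 3) (β : Fin 3 → PX 3 (KK 3)) (M : Mod 3)
  (U : Cov M) (L k : Type) [Field L] [Algebra ℂ L] [Field k] [Algebra ℂ k] (S : Sd L U.κ)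
  (G : Pl L k) (o j : M.J), U.OK la → S.OK f la β o → Fn f la U l S.P G o j →
  NC G.o (S.P.π (xx 3 l)) ∧ (∃ X : VF L, X (S.P.π (xx 3 l)) ≠ 0) ∧ IsFF ℂ k ∧
  G.π (S.P.π (xx 3 l)) ∉ Set.range (algebraMap ℂ k) ∧ Exp S.d G.o 0 ∧
  (∃ r, M.Gen (cmp S.P G.o.O) U.w (U.ρ r)) ∧
  ∀ r, M.Gen (cmp S.P G.o.O) U.w (U.ρ r) → M.Gen S.P.o.O U.w (U.ρ r) ∧
    ∀ X, (∀ m, U.L2 U.c0 r X m) → ∃ v u, S.P.Rs X v ∧ G.Rs v u

/-- The twin flag. -/
def TSwapN : Prop := ∀ (f : Po 3) (la : ℚ) (l : Fin 3) (M : Mod 3) (U : Cov M) (L L' k : Type)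
  [Field L] [Algebra ℂ L] [Field L'] [Algebra ℂ L'] [Field k] [Algebra ℂ k] (P : Pl (KK 3) L)
  (G : Pl L k) (P' : Pl (KK 3) L') (o j : M.J), U.OK la → Fn f la U l P G o j → P'.o = M.v j →
  ∃ G' : Pl L' k, Fn f la U l P' G' j o ∧ Tw M P G P' G' ∧ Tw M P' G' P G

def OfSwapN : Prop := EOut → TSwapN

/-- The data on the curve do not depend on the side. -/
def TTwN : Prop := AllW fun {_ _ k} _ _ _ _ _ _ _ l {M U} _ S G S' G' _ _ =>
  (∃ e : Dv k, G.RsD S.d e ∧ G'.RsD S'.d e) ∧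
  G'.π (S'.P.π (xx 3 l)) = G.π (S.P.π (xx 3 l)) ∧
  ∀ r, M.Gen (cmp S.P G.o.O) U.w (U.ρ r) → M.Gen (cmp S'.P G'.o.O) U.w (U.ρ r)

/-- The equation of order one on the curve. -/
def TEqN : Prop := AllW fun {L L' k} _ _ _ _ _ _ c l {M U} D S G S' G' o j => ∀ (e : Dv k) r,
  G.RsD S.d e → M.Gen (cmp S.P G.o.O) U.w (U.ρ r) → ∃ W : ℕ → VF k, Fs W ∧
    ∀ n (v : VF L) (v' : VF L') (ν ν' : k), S.P.Rs (D.X0 r n) v → S'.P.Rs (D.X0 r n) v' →
      Nor G v ν → Nor G' v' ν' → e.δ (W n) + sh W n (G.π (S.P.π (xx 3 l))) +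
        M.a j * ν + M.a o * ν' = if n = 0 then algebraMap ℂ k c else 0

def OfEqN : Prop := TKitN → TEqN

/-- The class passes to the twin flag. -/
def TEdgeN : Prop := AllW fun {_ _ _} _ _ _ _ _ _ c l {M _} D S G S' G' o j => ∀ E E',
  Cls D l S E → Cls D l S' E' → ∀ κ κ' : ℂ, M.a j * κ + M.a o * κ' = c →
  EulK G.o E κ → EulK G'.o E' κ'

def OfEdgeN : Prop := SLog → STop → TKitN → TTwN → TEqN → TEdgeN

/-- Flags and core curves. -/
def TFlagN : Prop := ∀ (f : Po 3) (la : ℚ) (b : Polynomial ℂ) (β : Fin 3 → PX 3 (KK 3))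
  (Q : PX 3 (KK 3)) (M : Mod 3) (U : Cov M) (C : Ch f M) (l : Fin 3), M.OK f → U.OK la →
  C.t = 0 → C.P M.nu = C.D.pb U.P → ∀ (o : M.J) (X : Ch.AV (M := M) o) (Y : C.AS o),
  Q3.Sit0 f la b β Q M C o → X.OK f la β → Y.OK la →
  (∀ Γ j, Cn (C.sd la b o X Y) l Γ j → Fn f la U l (M.v o).pl Γ.pl o j.1) ∧
    ∀ (Γ : DV (M.v o).kf) (j : C.Nb o), Fn f la U l (M.v o).pl Γ.pl o j.1 →
      Cn (C.sd la b o X Y) l Γ j

def OfFlagN : Prop := EOut → TFlagN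

/-- At a simple root there is a higher model on which all core curves of exponent zero at time
zero are complete. -/
def SNZ : Prop := ∀ (f : Po 3) (la : ℚ) (b : Polynomial ℂ) (β : Fin 3 → PX 3 (KK 3))
  (Q : PX 3 (KK 3)) (M' : Mod 3), Q3.Hyp0 f b β Q → M'.OK f → b.eval (-(la : ℂ)) = 0 →
  b.derivative.eval (-(la : ℂ)) ≠ 0 → ∃ (M : Mod 3) (_ : Dom M M'), M.OK f ∧
    ∀ (C : Ch f M) (o : M.J) (X : Ch.AV (M := M) o) (Y : C.AS o), Q3.Sit0 f la b β Q M C o →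
      X.OK f la β → Y.OK la → C.t = 0 → ∀ l Γ j, ¬Cn (C.sd la b o X Y) l Γ j

end

end Pool.Agent.MP_ee8c61_ag.N3.Q3IZ
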