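import Pool.Agent.MP_ee8c61_ag.R3NC.Cf2
import Pool.Agent.MP_ee8c61_ag.R3NC.TDefs

/-!
The first two terms of the local primitives as polynomials in one parameter.
-/

namespace Pool.Agent.MP_ee8c61_ag.N3.Q3IZ

open Pool.Agent.MP_ee8c61_ag.M3 Pool.Agent.MP_ee8c61_ag.Q3IZ

set_option linter.unusedSectionVars false

variable [Base]

open H59 hiding pd
open M3 M3L M3RESID Finset MvPolynomial
open M3B1 (pd)
open Q3NC (sh Fs)

noncomputable section

namespace NDat

variable {f : Po 3} {M : Mod 3} {la : ℚ} {l : Fin 3}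

theorem big_l2 (h : M.OK f) {U : Cov M} (h1 : ∀ j, U.c0 j ≤ M.k j + 1) {o : M.J} {i : U.κ}
    {y : Fin 3 → KK 3} {c : ℂ} {l : Fin 3} (e4 : U.L2 (U.c0 + M.e o) i
      (vf fun m => y m - M.S.vv (U.bb i) o m * algebraMap ℂ _ c) l) :
    U.L2 U.c0 i (vf y) l ∧ (M.S.lab (U.bb i) o ≠ some l → U.L2 (U.c0 + M.e o) i (vf y) l) := by
  have R := CCX.fr ℂ _ _ _ 3 M.S
  have e5 : ∑ m, M.S.vv (U.bb i) o m * pd 3 m (M.S.z (U.bb i) l) =
      if M.S.lab (U.bb i) o = some l then (M.S.un (U.bb i) l : KK 3) else 0 := by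
    rw [Sys.vv]
    cases M.S.lab (U.bb i) o with
    | none => simp
    | some l' =>
      have := M.S.D_R (U.bb i) l' (M.S.z (U.bb i) l)
      simp only [N3.M3L.R_eq h, M.S.D_z] at this
      simp only [Option.elim_some, Sys.v, mul_assoc, ← mul_sum, ← this, Option.some.injEq]
      split_ifs with e <;> simp [e]
  have e6 : vf (fun m => y m - M.S.vv (U.bb i) o m * algebraMap ℂ _ c) (M.S.z (U.bb i) l) =
      vf y (M.S.z (U.bb i) l) - algebraMap ℂ _ c *
        if M.S.lab (U.bb i) o = some l then (M.S.un (U.bb i) l : KK 3) else 0 := by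
    rw [← e5, vf_ap, vf_ap, mul_sum, ← sum_sub_distrib]
    exact sum_congr rfl fun m _ => by ring
  rw [Cov.L2, e6] at e4
  refine ⟨?_, fun hl => by simpa only [Cov.L2, if_neg hl, mul_zero, sub_zero] using e4⟩
  have m1 : M.mon (U.bb i) (M.e o) ∈ U.A i :=
    le_aw (R.mon_mem _ _ fun j => by rw [M.e_apply]; split_ifs <;> simp)
  have m2 : M.mon (U.bb i) (M.kk + 1 - U.c0) ∈ U.A i :=
    le_aw (R.mon_mem _ _ (sub_nonneg.2 h1))
  have e7 : M.mon (U.bb i) (M.kk + 1 - (U.c0 + M.e o)) * M.mon (U.bb i) (M.e o) =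
      M.mon (U.bb i) (M.kk + 1 - U.c0) := by
    rw [Mod.mon, Mod.mon, Mod.mon, ← Units.val_mul, ← R.mon_add]
    congr 2
    abel
  have e8 := mul_mem e4 m1
  rw [mul_assoc, e7, sub_div, sub_mul, mul_div_assoc] at e8
  refine CCA.mem_of_eq (add_mem e8 ?_) (sub_add_cancel _ _)
  split_ifs
  · rw [div_self (Units.ne_zero _), mul_one]
    exact mul_mem (Subalgebra.algebraMap_mem _ _) m2
  · simp

theorem vf_crx {V V' γ : Fin 3 → PX 3 (KK 3)} (e : ∀ m, V m = V' m + curl (NN f) γ m) (n : ℕ) :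
    (vf fun m => cf la l n (V m)) =
      (vf fun m => cf la l n (V' m)) + crx f la l (fun n m => cf la l n (γ m)) n := by
  refine Derivation.ext fun y => ?_
  rw [crx, Derivation.add_apply, Derivation.add_apply, lamv_ap, ← vf_curl, vf_ap, vf_ap, vf_ap,
    ← sum_add_distrib]
  exact sum_congr rfl fun m _ => by rw [e, map_add, add_mul]

end NDat

open NDat in
theorem rowDatN : OfDatN := by
  intro _ f la b β Q M U l H hb h hU
  have h1 : ∀ j, U.c0 j ≤ M.k j + 1 := fun j => by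
    rw [Cov.c0, hU.cl, Mod.up, Int.ceil_le]
    simpa [Mod.nu] using hU.le j
  obtain ⟨g, τ, e1, e2, e3⟩ := cck h H.bs U hU.ac hU.μ0 h1
  obtain ⟨V, hV⟩ : ∃ V : U.κ → Fin 3 → PX 3 (KK 3), ∀ i m, V i m = β m - curl (NN f) (g i) m :=
    ⟨_, fun _ _ => rfl⟩
  have d0 : ∀ i, ∑ m, NN f m (β m) = ∑ m, NN f m (V i m) := fun i => by
    simp only [hV, div_curl]
  simp only [← hV] at e1
  refine ⟨⟨fun i n => vf fun m => cf la l n (V i m), fun i n => vf fun m => cf1 la l n (V i m)⟩,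
    fun i => fs_vf (a := fun n m => cf la l n (V i m)) (fs_pi fun m => cf_fin la l _),
    fun i => fs_vf (a := fun n m => cf1 la l n (V i m)) (fs_pi fun m => cf1_fin la l _),
    fun i n m => l2_of (ev_cf la l n) h (e1 i) m, fun i n m => l2_of (ev_cf1 la l n) h (e1 i) m,
    fun i n => ?_, fun i n => ?_, fun i j => ?_, fun o ho hB i => ?_⟩
  · obtain ⟨p, hp⟩ := cf_bs H.bs hb l n
    rw [d0 i, cf_div] at hp
    exact ⟨p, hp⟩
  · obtain ⟨p, hp⟩ := cf1_bs H.bs la l n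
    rw [d0 i, cf1_div] at hp
    exact ⟨p, hp⟩
  · refine ⟨fun n m => cf la l n (g i m - g j m - NN f m (τ i j)),
      fs_pi fun m => cf_fin la l _, fun n => l1_of (ev_cf la l n) h (e2 i j), vf_crx fun m => ?_⟩
    rw [hV, hV]
    linear_combination -curl_diff β (g i) (g j) (τ i j) m
  · have a0 : (M.a o : ℂ) ≠ 0 := Nat.cast_ne_zero.2 (h.pos o).ne'
    have a1 : (M.k o + 1 : ℂ) = la * M.a o := by exact_mod_cast sub_eq_zero.1 ho
    obtain ⟨q, hq⟩ := Polynomial.dvd_iff_isRoot.2 hb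
    obtain ⟨G, τ', f1, f2, -⟩ := e3 o (Polynomial.C (M.a o : ℂ)⁻¹ * q) hB (by
      rw [hq, a1, map_mul, map_neg]
      linear_combination (-(Polynomial.X + Polynomial.C (la : ℂ)) * q) *
        (by rw [← map_mul, inv_mul_cancel₀ a0, map_one] :
          Polynomial.C (M.a o : ℂ)⁻¹ * Polynomial.C (M.a o : ℂ) = 1))
    refine ⟨fun n => vf fun m => cf la l n (β m - curl (NN f) (G i) m),
      fun n m => cf la l n (G i m - g i m), fs_pi fun m => cf_fin la l _,
      fun n => l1_of (ev_cf la l n) h (f1 i), vf_crx fun m => ?_, fun n m => ?_⟩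
    · rw [hV]
      fin_cases m <;> simp [curl, NN_sub] <;> ring
    · have e4 := l2_of (ev_cf la l n) h (f2 i) m
      simp only [map_sub (cf la l n) _ (C _ * _), cf_C_mul, cf_aeval] at e4
      refine big_l2 h h1 (c := if n = 0 then
        (Polynomial.C (M.a o : ℂ)⁻¹ * q).eval (-(la : ℂ)) else 0) ?_
      rwa [apply_ite (algebraMap ℂ (KK 3)), map_zero]

end

end Pool.Agent.MP_ee8c61_ag.N3.Q3IZ
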