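import Pool.Agent.MP_ee8c61_ag.R3NC.TDefs
import Pool.Agent.MP_ee8c61_ag.Q3IZ.RDict

/-! The class passes to the twin flag along a curve that is not complete. -/

namespace Pool.Agent.MP_ee8c61_ag.N3.Q3IZ

open Pool.Agent.MP_ee8c61_ag.M3 Pool.Agent.MP_ee8c61_ag.Q3IZ Pool.Agent.MP_ee8c61_ag.Q3NC

set_option linter.unusedSectionVars false

variable [Base]

open M3 M3E M3RESID M3F
open M3Z (cmp Fl)

theorem rowEdgeN : OfEdgeN := by
  intro hL hT hK hW hQ f la c l β M U D L L' k _ _ _ _ _ _ S G S' G' o j H hS hS' hF hF' tw E E'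
    hE hE' κ κ' hc hκ
  obtain ⟨nc, hX, ff, nr, ex, ⟨r, hr⟩, rs⟩ := hK f la l β M U L k S G o j H.cov hS hF
  obtain ⟨nc', hX', -, -, ex', -, rs'⟩ := hK f la l β M U L' k S' G' j o H.cov hS' hF'
  obtain ⟨⟨e, he, he'⟩, hu, hg⟩ := hW f la c l β M U D L L' k S G S' G' o j H hS hS' hF hF' tw
  choose v u hv hu0 using fun n => (rs r hr).2 (D.X0 r n) (H.dx.x0 r n)
  choose v' u' hv' hu0' using fun n => (rs' r (hg r hr)).2 (D.X0 r n) (H.dx.x0 r n)
  obtain ⟨x, hx⟩ : ∃ π, G.o.v π = 1 := hF.fl.nrm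
  obtain ⟨x', hx'⟩ : ∃ π, G'.o.v π = 1 := hF'.fl.nrm
  obtain ⟨ν, w, ⟨n₁, fw⟩, hν, hw⟩ := hL L S.d S.C _ hX k G e v E hS.fin ⟨x, hx⟩ nc ex he
    (hE.rd r v (rs r hr).1 hv) hE.kill fun n => (hu0 n).1
  obtain ⟨ν', w', ⟨n₂, fw'⟩, hν', hw'⟩ := hL L' S'.d S'.C _ hX' k G' e v' E' hS'.fin ⟨x', hx'⟩ nc'
    ex' he' (hE'.rd r v' (rs' r (hg r hr)).1 hv') hE'.kill fun n => (hu0' n).1
  obtain ⟨W, ⟨n₃, fW⟩, eW⟩ := hQ f la c l β M U D L L' k S G S' G' o j H hS hS' hF hF' tw e r he hr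
  have key := hT k e _ (algebraMap ℂ k c - M.a j * ν - M.a o * ν')
    (fun n => W n - (M.a j : k) • w n - (M.a o : k) • w' n) ff nr
    ⟨n₁ + n₂ + n₃, fun m hm => by
      simp only [fw m (by omega), fw' m (by omega), fW m (by omega), smul_zero, sub_zero]⟩
    fun n => by
      have h1 := eW n _ _ _ _ (hv n) (hv' n) (hw n) (hw' n)
      rw [hu] at h1
      rw [map_sub, map_sub, e.smul, e.smul, Derivation.map_natCast, Derivation.map_natCast]
      cases n with
      | zero =>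
        simp only [sh, if_true, Derivation.zero_apply] at h1 ⊢
        linear_combination h1
      | succ n =>
        simp only [sh, n.succ_ne_zero, if_false, Derivation.sub_apply, Derivation.smul_apply,
          smul_eq_mul] at h1 ⊢
        linear_combination h1
  have e1 : ν = algebraMap ℂ k κ := (hν.2.2 x hx).symm.trans ((RDict.nor_of_eul hκ).2.2 x hx)
  have : CharZero k := charZero_of_injective_algebraMap (algebraMap ℂ k).injective
  have a0 : (M.a o : k) ≠ 0 := Nat.cast_ne_zero.2 (H.ok.pos o).ne'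
  have h5 := congrArg (algebraMap ℂ k) hc
  simp only [map_add, map_mul, map_natCast] at h5
  have e2 : ν' = algebraMap ℂ k κ' := mul_left_cancel₀ a0 (by
    rw [e1] at key
    linear_combination -key - h5)
  exact RDict.eul_of_nor hx' (e2 ▸ hν')

end Pool.Agent.MP_ee8c61_ag.N3.Q3IZ
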