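import Pool.Agent.MP_ee8c61_ag.R3NC.TDefs
import Pool.Agent.MP_ee8c61_ag.R3IZ.RFlag

/-! Core curves of exponent zero that are not complete are double curves. -/

namespace Pool.Agent.MP_ee8c61_ag.N3.Q3IZ

open Pool.Agent.MP_ee8c61_ag.M3 Pool.Agent.MP_ee8c61_ag.Q3IZ Pool.Agent.MP_ee8c61_ag.Q3NC

set_option linter.unusedSectionVars false

variable [Base]

open M3 M3E M3RESID M3K Finset RIT

open RFlag in
theorem rowFlagN : OfFlagN := by
  classical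
  intro E f la b β Q M U C l hM hU ht hP o X Y h hX hY
  have K := kout_of E
  have Ka := K.ka 3 f M C hM
  have Kb := K.kb 3 f M C hM
  have B := E.bas 3 f M hM
  have BW := E.bas 3 f C.W C.ok
  have Dc := E.dc 3 f C.W M C.D C.ok hM
  have T := K.th 3 f C.W M C.D C.ok hM
  have t1 : U.Top la o := ⟨h.zero, (alive E hM hP o).1 h.alive⟩
  have pc := pb_c E hM hU hP
  refine ⟨fun Γ j hz => ?_, fun Γ j hF => ?_⟩
  · have hL : Lv C.W (C.D.e o) (M.v o).pl Γ := lv_of C.ok BW.toBas1 (C.D.v o).symm hz.cv.bas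
    have g2 : Tc (lift (M.v o).pl Γ) (xx 3 l) := (hL.nc_x l).1 hz.nc
    obtain ⟨i, hi⟩ : ∃ i, 0 < C.W.tr (M.v o).pl Γ i := by
      by_contra! h0
      have h1 : (∑ i, C.P (M.q (M.e j.1)) i * C.W.tr (M.v o).pl Γ i : ℚ) = 1 := hz.core.2.1
      rw [sum_eq_zero fun i _ => by rw [le_antisymm (h0 i) (hL.tr_nonneg i)]; simp] at h1
      exact zero_ne_one h1
    obtain ⟨h1, h2⟩ := (hL.tr_pos_iff i).1 hi
    obtain ⟨a, ha⟩ := hL.cov
    have hV := K.up f C.W C.ok _ i _ a _ h1 ha hL.le h2 (Lc.of_mem (C.ok.xx_mem a l)) g2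
    obtain ⟨e1, e2, e3, -⟩ := on_cv (Y := Y) E h hX hL hz.cv.sur hV
    have h5 := hz.core.1
    rw [e3, e2, ex_W C Ka, Pi.add_apply, add_eq_right] at h5
    have h6 := (e1 j).symm.trans hz.core.2.1
    rw [(Kb.tame i h5).2, ← C.D.q_pb, Mod.q_apply, C.D.pb_e, Int.cast_natCast] at h6
    obtain ⟨a', ha'⟩ := hM.cov _ hL.ov
    exact ⟨⟨hM, B, E.der 3 f M hM, E.cv 3 f M hM, rowUnr, rfl, hz.cv.sur,
      K.up f M hM o j.1 _ a' _ j.2.1 ha' lift_le
        ((T _ _ hL.ov).2 ⟨i, h2, Nat.cast_pos.1 (h6 ▸ one_pos)⟩)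
        (Lc.of_mem (hM.xx_mem a' l)) g2⟩, t1, ⟨hz.al, (alive E hM hP _).1 j.2.2⟩, g2⟩
  · have hV : M.IsCv o j.1 (lift (M.v o).pl Γ) := hF.fl.isc
    have hM' : Lv M o (M.v o).pl Γ := ⟨B.toBas1, rfl, hM.cov _ hV.2.1⟩
    have hL := hM'.up C.D C.ok BW.toBas1
    have g2 : Tc (lift (M.v o).pl Γ) (xx 3 l) := hF.nc
    have nc := (hL.nc_x l).2 g2
    have cv : M3.Cv (C.sd la b o X Y).x Γ :=
      ⟨hF.fl.nrm, fun l => (hV.2.1 (xp 3 l)).2, _, nc⟩
    obtain ⟨i, i1, i2⟩ := (T _ _ hL.ov).1 hV.2.2.2.1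
    have io : i ≠ C.D.e o := fun e => by
      have := Dc.pb_e ℤ (M.e j.1) o
      rw [C.D.pb_e, M.e_apply, if_neg j.2.1.symm, ← e] at this
      omega
    obtain ⟨a, ha⟩ := hL.cov
    have hW := K.up f C.W C.ok _ i _ a _ io ha hL.le i1 (Lc.of_mem (C.ok.xx_mem a l)) g2
    obtain ⟨e1, e2, e3, e4⟩ := on_cv (Y := Y) E h hX hL cv.sur hW
    have mm : ∀ l, l ≠ o → (C.D.m i l : ℤ) = if l = j.1 then 1 else 0 := fun l hl => by
      rw [← hM'.tr_cv (E.cv 3 f M hM) cv.sur hV, tr_ref C.D hM' hL hl]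
      simpa using (hL.sum_cv (R := ℤ) (E.cv 3 f C.W C.ok) cv.sur hW fun i => C.D.m i l).symm
    have x1 : C.W.ex la i = 0 := by
      have := e4.uniq (exp_cv hM (E.cv 3 f M hM) hM' cv.sur hV h.zero hX.rd) cv.sur.choose_spec
      rw [hF.t2.1] at this
      exact_mod_cast this
    have x2 : C.P (M.ex la) i = 0 := by
      have h4 := congrFun pc i
      rw [Mod.q_apply, Pi.smul_apply, nsmul_eq_mul, Dom.pb, sum_eq_zero fun l _ => ?_,
        Int.cast_zero] at h4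
      · exact (mul_eq_zero.1 h4.symm).resolve_left (Nat.cast_ne_zero.2 hU.m0.ne')
      by_cases hl : l = o
      · rw [hl, c_top hU t1, mul_zero]
      rw [mm l hl]
      split_ifs with e
      · rw [e, c_top hU hF.t2, mul_zero]
      · exact zero_mul _
    have h5 : dl C i = 0 := by rwa [ex_W C Ka, Pi.add_apply, x2, add_zero] at x1
    have hβ : ∀ l : C.Nb o, (C.sd la b o X Y).β l Γ = if l.1 = j.1 then 1 else 0 := fun l => by
      rw [e1, (Kb.tame i h5).2, ← C.D.q_pb, Mod.q_apply, C.D.pb_e, mm l.1 l.2.1]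
      split_ifs <;> simp
    exact ⟨cv, ⟨by rw [e3, e2, x1, x2], by rw [hβ, if_pos rfl], fun l hl =>
      (hβ l).trans (if_neg fun e => hl (Subtype.ext e))⟩, hF.t2.1, nc⟩

end Pool.Agent.MP_ee8c61_ag.N3.Q3IZ
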