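import Pool.Agent.MP_ee8c61_ag.R3NC.SDefs
import Pool.Agent.MP_ee8c61_ag.Q3FT.RCn

/-! Integral exponents along a closed vertical field; curves of exponent zero on a wall. -/

namespace Pool.Agent.MP_ee8c61_ag.Q3NC

open M3 M3RESID M3F Q3 Q3P Q3IZ

noncomputable section

theorem rowInt : SInt := by
  intro L ι _ _ _ Z hZ t ht hv h0 Γ a hΓ ha
  have := cz (Kz t)
  let Y := rel (Kz t) Z.v fun _ hy => hy _ hv
  have hY : Y ≠ 0 := fun h => h0 (Derivation.ext fun g =>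
    congrArg (fun X : Derivation (Kz t) L L => X g) h)
  obtain ⟨g, N, hD⟩ := gf (Kz t) L (isFF_Kz Z.C hZ.fin ht) (cl_Kz t) Y hY
  obtain ⟨P, rfl⟩ := exists_place hΓ
  have := exp_eq (X := Z.v) (ψ := 1) ha one_pos one_ne_zero (by simp [hZ.dv]) (M3C.val_unif P)
    (hD.uni P _ (M3C.val_unif P)) (hD.reg P)
  exact ⟨P.ord 1 + 1 + M3C.cw Y P, by simpa using this⟩

theorem rowDn : SDn := by
  rintro L _ _ D h hs h0 ⟨Γ, l, hc, hn, he⟩
  have ht : ∃ X : VF L, X (D.x l) ≠ 0 :=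
    exists_der D.C h.vol.srf.fin (tr_of_nc fun c e => hn.2 c (by rw [e, sub_self]; exact zero_mem _))
  have p := pc_of1 hs ht (x_mem _ _ l)
  have h1 := (Q3FT.cn_pc h h0 p fun Γ' hΓ' => cls_of1 h.kvl (p.cv hΓ') fun e =>
    e.1 l (hΓ'.nc (self_mem_Kz _) (ne_of_der ht))).ex Γ (hor_of_nc D.C h.vol.srf.fin hc.sur hn)
  rw [he] at h1
  rcases h1 with h1 | ⟨r, hr, h1⟩
  · exact lt_irrefl _ h1
  · exact (one_div_pos.2 (Nat.cast_pos.2 hr : (0 : ℚ) < r)).ne h1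

end

end Pool.Agent.MP_ee8c61_ag.Q3NC
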