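import Pool.Agent.MP_ee8c61_ag.R3NC.TDefs
import Pool.Agent.MP_ee8c61_ag.R3IZ.RKit
import Pool.Agent.MP_ee8c61_ag.R3IZ.RLv
import Pool.Agent.MP_ee8c61_ag.R3IZ.RE0
import Pool.Agent.MP_ee8c61_ag.R3IZ.RE1
import Pool.Agent.MP_ee8c61_ag.R3IZ.RSwap
import Pool.Agent.MP_ee8c61_ag.M3F.LF

/-!
Double curves that are not complete: the curve, the twin flag and the common data.
-/

namespace Pool.Agent.MP_ee8c61_ag.N3.Q3IZ

open Pool.Agent.MP_ee8c61_ag.M3 Pool.Agent.MP_ee8c61_ag.Q3IZ Pool.Agent.MP_ee8c61_ag.Q3NC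

set_option linter.unusedSectionVars false

variable [Base]

open M3 M3E M3RESID M3F M3Z

noncomputable section

namespace RKitN

variable {L k : Type} [Field L] [Algebra ℂ L] [Field k] [Algebra ℂ k] {f : Po 3} {M : Mod 3}
  {P : Pl (KK 3) L} {G : Pl L k} {e i : M.J} {la : ℚ} {U : Cov M} {l : Fin 3}

/-- The components of a field of the lattice are regular along the curve. -/
theorem reg (hU : U.OK la) (h : Fn f la U l P G e i) {r : U.κ}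
    (hr : M.Gen (cmp P G.o.O) U.w (U.ρ r)) {X : VF (KK 3)} (hX : ∀ m, U.L2 U.c0 r X m)
    (m : Fin 3) : X (M.S.z (U.bb r) m) / M.S.un (U.bb r) m ∈ cmp P G.o.O := by
  obtain ⟨hb, hA⟩ := RLv.in_of_gen hU h.fl.isc.2.1 hr
  have hfl : fl e i (M.kk + 1 - U.c0) = M.kk + 1 - U.c0 :=
    fl_eq (by simp [Mod.kk, RLv.c0_top hU h.t1]) (by simp [Mod.kk, RLv.c0_top hU h.t2])
  have hun := h.fl.un_fl hb (M.kk + 1 - U.c0)
  rw [hfl] at hun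
  exact hun.mem_iff.1 (hA _ (hX m))

theorem xx_cmp (h : Fn f la U l P G e i) : xx 3 l ∈ cmp P G.o.O := (ov_iff.1 h.fl.isc.2.1).2 l

/-- The function is not constant on the curve. -/
theorem ne_cst (h : Fn f la U l P G e i) (c : ℂ) : G.π (P.π (xx 3 l)) ≠ algebraMap ℂ k c := by
  have h1 := p2_ne (h.nc c)
  rwa [p2_sub (xx_cmp h) (cst_cmp c), p2_cst, sub_ne_zero] at h1

end RKitN

open RKitN in
theorem rowKitN : TKitN := by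
  intro f la l β M U L k _ _ _ _ S G o j hU hS hF
  have h := hF.fl
  have hV := h.isc.2.1
  obtain ⟨b, hb⟩ := h.ok.cov _ hV
  obtain ⟨l0, l1, l2, hl⟩ := h.labels hb
  obtain ⟨p, hp⟩ := h.nrm
  refine ⟨⟨(xx_cmp hF).2, fun c hc => ne_cst hF c ?_⟩,
    exists_der S.C hS.fin (tr_of_nc fun c e => ne_cst hF c (by rw [e, G.π_cst])),
    h.isFF hb hl, fun ⟨c, hc⟩ => ne_cst hF c hc.symm, ?_, hU.ac.cov _ hV,
    fun r hr => ⟨RKit.gen_mono h.ok h.bas.toBas1 hV (cmp_le _ _) hr, fun X hX => ?_⟩⟩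
  · have h1 := G.π_F1 hc
    rwa [Pl.π_sub (xx_cmp hF).2 (cst_F _ c), G.π_cst, sub_eq_zero] at h1
  · simpa [hF.t2.1] using exp_isCv h.ok h.po hF.t1.1 hS.rd hp h.isc
  · have hb' := (RLv.in_of_gen hU hV hr).1
    obtain ⟨m0, m1, m2, hm⟩ := h.labels hb'
    obtain ⟨-, u, ⟨v, h1, h2⟩, -⟩ := RE1.loc h hb' hm (reg hU hF hr hX)
    exact ⟨v, u, h1, h2⟩

theorem rowTwN : TTwN := by
  intro f la c l β M U D L L' k _ _ _ _ _ _ S G S' G' o j H hS hS' hF hF' hT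
  have h := hF.fl
  obtain ⟨b, hb⟩ := h.ok.cov _ h.isc.2.1
  refine ⟨RE0.vol h hF'.fl hT hF.t1.1 hF.t2.1 hS.rd hS'.rd,
    (hT.lc b hb _ (Lc.of_mem (h.ok.xx_mem b l))).2, fun r hr => ?_⟩
  obtain ⟨h1, h2⟩ := (H.cov.ac.gen r _ h.isc.2.1).1 hr
  have h3 := (hT.inn _).1 h1
  have ht := H.cov.ac.mem r
  refine (H.cov.ac.gen r _ hF'.fl.isc.2.1).2 ⟨h3, (un_p2 (h3 _ ht) ?_).2.2⟩
  rw [(hT.lc _ h1 _ (Lc.of_mem ht)).2]
  exact p2_ne ⟨H.cov.ac.ne r, h1 _ ht, h2⟩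

open RSwap in
theorem rowSwapN : OfSwapN := by
  intro E f la l M U L L' k _ _ _ _ _ _ P G P' o j hU hF ho
  have h := hF.fl
  have B := h.bas.toBas1
  obtain ⟨V', hV, hs⟩ := twin E h.ok h.isc
  obtain ⟨Γ, rfl, hn⟩ := RIT.exists_dv (n := 2) h.ok B h.cv ho hV
  obtain ⟨b, hb⟩ := h.ok.cov _ h.isc.2.1
  obtain ⟨G', rfl, hπ⟩ := place (Γ := Γ) h ⟨h.ok, h.bas, h.der, h.cv, h.unr, ho, hn, hV⟩ hs hb
  replace hs : Same M (cmp P G.o.O) (cmp P' G'.o.O) := hs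
  exact ⟨G', ⟨⟨h.ok, h.bas, h.der, h.cv, h.unr, ho, hn, hV⟩, hF.t2, hF.t1, fun c =>
      (hs.2 b hb _ (sub_mem (h.ok.xx_mem b l) ((M.S.A b).algebraMap_mem c))).1 (hF.nc c)⟩,
    ⟨hs.1, fun a ha g hg => ⟨hs.lc ha hg, hπ g (lc_ch B ha hb hg)⟩,
      fun a ha g hg => hs.symm.lc ((hs.1 a).1 ha) hg⟩,
    ⟨hs.symm.1, fun a ha g hg => ⟨hs.symm.lc ha hg,
      (hπ g (lc_ch B ((hs.1 a).2 ha) hb (hs.symm.lc ha hg))).symm⟩,
      fun a ha g hg => hs.lc ((hs.1 a).2 ha) hg⟩⟩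

end

end Pool.Agent.MP_ee8c61_ag.N3.Q3IZ
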