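import Pool.Agent.MP_ee8c61_ag.R3NC.SDefs
import Pool.Agent.MP_ee8c61_ag.Q3IZ.RDict

/-!
Normal components along a curve on which the function is not constant.
-/

namespace Pool.Agent.MP_ee8c61_ag.Q3NC

open M3 M3RESID Q3IZ Q3IZ.RDict
open M3J (ex br)

namespace RLog

theorem down {p : ℕ → Prop} {N : ℕ} (h0 : ∀ m, N ≤ m → p m) (h1 : ∀ n, p (n + 1) → p n) (n : ℕ) :
    p n := by
  by_cases h : N ≤ n
  · exact h0 n h
  · exact Nat.decreasingInduction (motive := fun m _ => p m) (fun m _ => h1 m) (h0 N le_rfl)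
      (not_le.1 h).le

variable {L k : Type} [Field L] [Algebra ℂ L] [Field k] [Algebra ℂ k] {G : Pl L k}
  {C C' : Co L 2}

theorem vert (C' : Co L 2) {X : VF L} (h : X (C'.z 1) = 0) :
    X = (X (C'.z 0) / C'.z 0) • C'.th 0 :=
  M3J.ext2 C' (by simp [Co.th_z, C'.ne 0]) (by simp [Co.th_z, h])

theorem hm_eq (C C' : Co L 2) (t : L) : t • hm C (C'.z 1) = (-RDict.co C C' t) • C'.th 0 := by
  rw [vert C' (X := t • hm C (C'.z 1)) (by simp [hm, mul_comm])]
  refine congrArg (· • C'.th 0) ?_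
  simp only [hm, RDict.co, br, Derivation.smul_apply, Derivation.sub_apply, smul_eq_mul]
  ring

theorem nor_th (hA : C'.At G.o 0) {a : L} (ha : a ∈ G.o.F 0) : Nor G (a • C'.th 0) (G.π a) := by
  have hz := M3J.z0_F hA
  refine nor_of hA.vz ((M3J.mem_LV hA).2 ⟨?_, by simp [Co.th_z]⟩) (fun g hg => ?_) ?_
  · simpa [Co.th_z] using F_mul0 ha hz
  · exact F_mul0 ha (F_mul0' hz (hA.D 0 g hg))
  · simp [Co.th_z, C'.ne 0]

end RLog

open RLog

theorem rowTop : STop := by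
  intro k _ _ e u c w hk hu ⟨N, hN⟩ h
  have h0 := down (p := fun n => w n = 0) hN (fun n hn => by
    by_contra hw
    refine M3C.RDer.ne_zero hk _ hw u hu ?_
    simpa [hn, sh] using h (n + 1)) 0
  simpa [h0, sh] using (h 0).symm

theorem rowLog : SLog := by
  intro L _ _ d C u _ k _ _ G e v E hf ⟨x, hx⟩ hu hE hR ⟨Θ, ⟨N, hN⟩, hv⟩ hEu hL
  obtain ⟨C', hC, hA⟩ := cv_at C hf hx hu.1 hu.2
  obtain rfl : u = C'.z 1 := by rw [hC]; rfl
  obtain ⟨D, hD⟩ := M3Z.exists_Rs G (hA.D_LV (j := 1) (by decide))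
  have c0 : RDict.co C C' 0 = 0 := by simp [RDict.co]
  have h1 : ∀ n, RDict.co C C' (Θ n) ∈ G.o.F 0 := down (N := N)
    (fun m h => by rw [hN m h, c0]; exact zero_mem _) fun n hn => by
      have h2 := sub_mem (nor_ex hA hD hE hR hn).1 (hL (n + 1))
      rw [hv, if_neg n.succ_ne_zero, zero_add, exx, sub_add_cancel_left, hm_eq, neg_smul,
        neg_neg] at h2
      simpa [Co.th_z, C'.ne 0, sh] using dlog_F0 h2 (C'.z 0)
  have h2 : E ∈ LV G.o 0 := by
    have := sub_mem (hL 0) (nor_ex hA hD hE hR (h1 0)).1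
    simpa [hv, exx, sh] using this
  have h3 := nor_th hA (dlog_F0 h2 (C'.z 0))
  rw [← vert C' hEu] at h3
  refine ⟨_, fun n => G.π (RDict.co C C' (Θ n)) • D,
    ⟨N, fun m h => by simp only [hN m h, c0, M3Z.pi_zero, zero_smul]⟩, h3, fun n => ?_⟩
  cases n with
  | zero => simpa [hv, exx, sh, sub_eq_add_neg] using nor_add h3 (nor_ex hA hD hE hR (h1 0))
  | succ n =>
    have h4 := nor_add (nor_ex hA hD hE hR (h1 (n + 1))) (nor_th hA (neg_mem (h1 n)))
    rw [← hm_eq, M3Z.pi_neg (h1 n), ← neg_add] at h4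
    simpa [hv, exx, sh, D_z hA hD] using h4

end Pool.Agent.MP_ee8c61_ag.Q3NC
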