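import Pool.Agent.MP_ee8c61_ag.Q3IZ.RVxc
import Pool.Agent.MP_ee8c61_ag.Q3IZ.RBx1
import Pool.Agent.MP_ee8c61_ag.Q3IZ.RVx1
import Pool.Agent.MP_ee8c61_ag.Q3IZ.RVx

/-!
Closed vertical fields on a fibred surface: the Euler constants at the sections of exponent zero.
-/

namespace Pool.Agent.MP_ee8c61_ag.Q3NC.VxK

open M3 M3RESID M3F Q3IZ Q3 Q3P
open M3J (ex br)

noncomputable section

variable {L ι : Type} [Field L] [Algebra ℂ L]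

/-- The datum with another primitive. -/
def wv (Z : QD L ι) (E : VF L) : QD L ι := { Z with v := E }

theorem wv_ok {Z : QD L ι} (hZ : Z.OK) {E : VF L} (h : Z.d.δ E = 0) : (wv Z E).OK :=
  ⟨hZ.fin, hZ.q0, hZ.ψ0, hZ.rat, hZ.m0, h, hZ.ne⟩

theorem good0 (d : Dv L) (Γ : DV L) : Good d 0 Γ := ⟨0, zero_mem _, fun g _ => by simp⟩

/-- Two horizontal curves of exponent zero. -/
theorem ru [Fintype ι] (hR : SRul) {Z : QD L ι} (hZ : Z.OK) {t : L} {G₁ G₂ : DV L}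
    (ht : ∃ X : VF L, X t ≠ 0) (hne : G₁ ≠ G₂) (h1 : Hor (Kz t) G₁) (h2 : Hor (Kz t) G₂)
    (e1 : Exp Z.d G₁ 0) (e2 : Exp Z.d G₂ 0)
    (ha : ∀ Γ, Hor (Kz t) Γ → Exp Z.d Γ 0 ∨ Exp Z.d Γ 1) {E : VF L} (hE : E t = 0)
    (hd : Z.d.δ E = 0) {κ : ℂ} (h : EulK G₂ E κ) : EulK G₁ E (-κ) := by
  obtain ⟨C', α, R⟩ := hR L ι (wv Z 0) (wv_ok hZ (map_zero _)) t G₁ G₂ ht hne h1 h2 e1 e2
    (fun Γ hΓ => (ha Γ hΓ).imp_right fun e => ⟨e, good0 _ _⟩)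
    ⟨0, by simp [QD.X, wv, M3J.ex_zero], fun g _ => by simp [QD.X, wv, M3J.ex_zero]⟩
  have z0 := C'.ne 0
  obtain ⟨a, ea⟩ : ∃ a, a = E (C'.z 0) / C'.z 0 := ⟨_, rfl⟩
  have e : E = a • C'.th 0 := M3J.ext2 C'
    (by simp [Co.th, C'.dual, ea, z0]) (by simp [Co.th, C'.dual, R.rul.mem E hE])
  have d0 : Z.d.δ (C'.th 0) = 0 := R.d0
  have a0 : C'.D 0 a = 0 := by
    rw [e, Z.d.smul, d0, mul_zero, zero_add, Co.th, Derivation.smul_apply, smul_eq_mul] at hd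
    exact (mul_eq_zero.1 hd).resolve_left z0
  have aK : a ∈ Kz t := fun X hX => by
    rw [M3J.ap2 C' X a, a0, R.rul.mem X hX]
    simp
  have k : a + algebraMap ℂ L κ = 0 := by
    refine RVxc.k_zero h2 (add_mem aK ((Kz t).algebraMap_mem κ)) ?_
    have h3 := F_div (h (-1) (C'.z 0) (Or.inr R.v2.ge)) (C'.z 0)
    rw [R.v2] at h3
    refine F_of_eq h3 ?_
    rw [ea]
    push_cast
    field_simp
    ring
  intro m g hg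
  have h3 := F_mul0 (h1.2 a aK) (RVxc.sec Z.C hZ.fin (RVxc.ada R) h1 R.v1 hg).1
  refine F_of_eq h3 ?_
  rw [e, Derivation.smul_apply, smul_eq_mul, map_neg, eq_neg_of_add_eq_zero_left k]
  ring

/-- One horizontal curve of exponent zero. -/
theorem one [Fintype ι] (hR : SRul) (hB0 : SBx0) (hRes : SRes) (hA : SExA) (hB : SExB)
    {Z : QD L ι} (hZ : Z.OK) {t : L} {G : DV L} (ht : ∃ X : VF L, X t ≠ 0) (hH : Hor (Kz t) G)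
    (e0 : Exp Z.d G 0) (ho : ∀ Γ, Hor (Kz t) Γ → Γ ≠ G → ∃ a : ℚ, Exp Z.d Γ a ∧
      ((∃ r : ℕ, 2 ≤ r ∧ a = 1 / r) ∨ a = 1)) {E : VF L} (hE : E t = 0) (hd : Z.d.δ E = 0)
    {κ : ℂ} (h : EulK G E κ) : κ = 0 := by
  have h0 := wv_ok hZ (map_zero Z.d.δ)
  have hs : Spl (wv Z 0) t G := by
    by_cases h : ∃ Γ, ∃ r : ℕ, Hor (Kz t) Γ ∧ 2 ≤ r ∧ Exp Z.d Γ ((1 / r : ℚ) : ℂ)
    · refine hA L ι _ h0 t G ht hH e0 (fun Γ h1 h2 => ?_) h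
      obtain ⟨a, h3, h4⟩ := ho Γ h1 h2
      exact ⟨a, h3, h4.imp_right fun e => ⟨e, good0 _ _⟩⟩
    · refine hB L ι _ h0 t G ht hH e0 fun Γ h1 h2 => ?_
      obtain ⟨a, h3, ⟨r, h4, rfl⟩ | rfl⟩ := ho Γ h1 h2
      · exact absurd ⟨Γ, r, h1, h4, h3⟩ h
      · exact ⟨by simpa [wv] using h3, good0 _ _⟩
  obtain ⟨L₁, _, _, _, _, _, ⟨G₁, G₂, hne, o1, o2⟩, hall⟩ := hs
  have hW := wv_ok hZ hd
  obtain ⟨Z₁, hX⟩ := hB0 L ι _ hW L₁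
  obtain ⟨-, -, r3⟩ := hRes L L₁ ι _ Z₁ hW hX
  have nc : ∀ Γ, Hor (Kz t) Γ → NC Γ t := fun Γ h => h.nc (self_mem_Kz t) (ne_of_der ht)
  obtain ⟨x, hx⟩ := hH.1
  have up : ∀ G₁ : DV L₁, Ovr G₁ G 1 → Hor (Kz (algebraMap L L₁ t)) G₁ ∧ Exp Z₁.d G₁ 0 ∧
      EulK G₁ Z₁.v κ := fun G₁ o => by
    have hx1 : G₁.v (algebraMap L L₁ x) = 1 := by simp [o.2, hx]
    obtain ⟨-, x1, x2⟩ := r3 G₁ G 1 ⟨_, hx1⟩ ⟨⟨x, hx⟩, t, nc G hH⟩ o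
    refine ⟨hor_of_nc Z₁.C hX.ok.fin ⟨_, hx1⟩ (RVx1.nc_up o (nc G hH)),
      by simpa using x1 0 (by simpa [wv] using e0), RBx1.eul_of hx1
        ((x2 E Z₁.v hX.v).2.2 rfl (RBx1.eul_lv h) fun g hg => by simpa using h 0 g hg) ?_⟩
    have := (RVx1.F_up o).2 (h 1 x (Or.inr hx.ge))
    rw [map_sub, map_mul, map_mul, ← IsScalarTower.algebraMap_apply, Int.cast_one, map_one,
      mul_one] at this
    rw [hX.v]
    exact this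
  obtain ⟨h1, e1, k1⟩ := up G₁ o1
  obtain ⟨h2, e2, k2⟩ := up G₂ o2
  have k3 := ru hR hX.ok (RVx1.der_up hX ht) hne h1 h2 e1 e2 (fun Γ₁ h => by
    obtain ⟨Γ, e, h3, h4, h5⟩ := hall Γ₁ h
    obtain ⟨-, x1, -⟩ := r3 Γ₁ Γ e h.1 ⟨h3.1, t, nc Γ h3⟩ h4
    rcases h5 with ⟨rfl, rfl | ⟨h6, -⟩⟩ | ⟨rfl, h6⟩
    · exact Or.inl (by simpa using x1 0 (by simpa [wv] using e0))
    · exact Or.inr (by simpa using x1 1 (by simpa [wv] using h6))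
    · have := x1 _ h6
      rw [show ((2 : ℕ) : ℚ) * (1 / 2) = 1 by norm_num, Rat.cast_one] at this
      exact Or.inr this) (by rw [hX.v]; exact (congrArg _ hE).trans (map_zero _)) hX.ok.dv k2
  obtain ⟨y, hy⟩ := h1.1
  have y0 : y ≠ 0 := fun e => by simp [e, G₁.zero] at hy
  have h3 := F_div (sub_mem (k3 1 y (Or.inr hy.ge)) (k1 1 y (Or.inr hy.ge))) y
  rw [hy] at h3
  have h4 : algebraMap ℂ L₁ (2 * κ) ∈ G₁.F 1 := F_of_eq h3 (by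
    rw [map_mul, map_neg, map_ofNat]
    push_cast
    field_simp
    ring)
  simpa using cst_F1 h4

/-- The datum of a surface. -/
def qd (D : SD L) : QD L Unit := ⟨D.C, D.q, D.ψ, D.d, 0, fun _ => 1, fun _ => 0, ∅, 1⟩

theorem qd_ok {D : SD L} (h : OK1 D) : (qd D).OK :=
  ⟨h.vol.srf.fin, h.vol.q0, h.vol.ψ0, h.vol.rat, one_pos, map_zero _, (), one_ne_zero⟩

/-- The vertex of a divisor that is contracted at time zero, along curves that are not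
complete. -/
theorem vx (hR : SRul) (hB0 : SBx0) (hRes : SRes) (hA : SExA) (hB : SExB) {D : SD L}
    (h : OK1 D) (hs : D.Small) (h0 : D.t0 = 0) {l : Fin 3} {E : VF L} (hE : E (D.x l) = 0)
    (hd : D.d.δ E = 0) {G : DV L} {j : D.A} (cv : Cv D.x G) (c : D.Core j G) (al : D.al j = 0)
    (n : NC G (D.x l)) : (0 < D.h j ∧ ∀ κ, EulK G E κ → κ = 0) ∨
      ∃ G₂ j₂, Cv D.x G₂ ∧ D.Core j₂ G₂ ∧ D.al j₂ = 0 ∧ NC G₂ (D.x l) ∧ 0 < D.h j + D.h j₂ ∧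
        ∀ κ, EulK G₂ E κ → EulK G E (-κ) := by
  have fin := h.vol.srf.fin
  have hm : D.x l ∈ RF D.x D.S0 := x_mem _ _ l
  generalize D.x l = t at n hm hE
  have p : Pc D t := pc_of1 hs (exists_der D.C fin (tr_of_nc (nc_ne n))) hm
  have hG := hor_of_nc D.C fin cv.sur n
  have eG : Exp D.d G 0 := by
    simpa [c.1, show D.α G = 0 from (core_sum c D.al).trans al] using h.vol.exp G cv
  obtain ⟨φ, -, b1⟩ := p.zero1 h.ok2 h0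
  have z : ∀ Γ, Hor (Kz t) Γ → D.α Γ = 0 := fib00 h.vol.srf p.der
    (fun Γ hΓ => ⟨_, h.vol.exp _ (p.cv hΓ), cls_of1 h.kvl (p.cv hΓ)
      fun e => p.nn1 h.ok2 hm hΓ (h.nul Γ (p.cv hΓ) e).1⟩) h.sem.m b1 ⟨G, hG, eG⟩
  by_cases k : ∃ G₂ j₂, Hor (Kz t) G₂ ∧ G ≠ G₂ ∧ D.Core j₂ G₂
  · obtain ⟨G₂, j₂, h2, ne, c2⟩ := k
    obtain ⟨t1, t2⟩ := RVx.two h p hm h0 z ne hG h2 c c2
    have e2 : Exp D.d G₂ 0 := by simpa [c2.1, z _ h2] using h.vol.exp _ (p.cv h2)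
    exact Or.inr ⟨G₂, j₂, p.cv h2, c2, (core_sum c2 D.al).symm.trans (z _ h2),
      h2.nc (self_mem_Kz t) (ne_of_der p.der), t2, fun κ hκ => ru hR (qd_ok h) p.der ne hG h2 eG e2
        (fun Γ hΓ => (t1 Γ hΓ).imp_right And.left) hE hd hκ⟩
  · have o : ∀ Γ, Hor (Kz t) Γ → Γ ≠ G → (∀ j, D.β j Γ = 0) ∧ Hon D.d D.v Γ (D.ex Γ) :=
      fun Γ hΓ x => (RVx.hor_cases h p hm z hΓ).resolve_left fun ⟨_, i, y⟩ =>
        k ⟨Γ, i, hΓ, x.symm, y⟩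
    refine Or.inl ⟨?_, fun κ hκ => one hR hB0 hRes hA hB (qd_ok h) p.der hG eG
      (fun Γ hΓ x => ⟨_, h.vol.exp _ (p.cv hΓ), (o Γ hΓ x).2.imp_right And.left⟩) hE hd hκ⟩
    obtain ⟨Γ, hΓ, x⟩ := p.pos1 h.ok2
    by_cases e : Γ = G
    · rw [e, RVx.th_core c (z _ hG)] at x
      exact (mul_pos_iff_of_pos_left (h0 ▸ h.sem.t1)).1 x
    · simp [SD.th, (o Γ hΓ e).1] at x

end

end Pool.Agent.MP_ee8c61_ag.Q3NC.VxK
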