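import Pool.Agent.MP_ee8c61_ag.R3NC.SDefs
import Pool.Agent.MP_ee8c61_ag.R3NC.VxK
import Pool.Agent.MP_ee8c61_ag.Q3IZ.RRul
import Pool.Agent.MP_ee8c61_ag.Q3IZ.RBx0
import Pool.Agent.MP_ee8c61_ag.Q3IZ.RRes
import Pool.Agent.MP_ee8c61_ag.Q3IZ.RExA
import Pool.Agent.MP_ee8c61_ag.Q3IZ.RExB

/-!
The vertex of a divisor that is contracted to a curve.
-/

namespace Pool.Agent.MP_ee8c61_ag.Q3NC

open M3 M3RESID M3F Q3IZ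

theorem stwo : STwo := fun _ _ _ _ _ _ hZ _ _ _ ht hv hne h1 h2 e1 e2 ha _ h =>
  VxK.ru rowRul hZ ht hne h1 h2 e1 e2 ha hv hZ.dv h

theorem sone : SOne := fun _ _ _ _ _ _ hZ _ _ ht hv hH e0 ho _ h =>
  VxK.one rowRul rowBx0 rowRes rowExA rowExB hZ ht hH e0
    (fun Γ h1 h2 => ⟨1, by simpa using ho Γ h1 h2, Or.inr rfl⟩) hv hZ.dv h

theorem rowOne : OfOne := fun _ => sone

theorem svxn : SVxN := fun _ _ _ _ _ _ h hs h0 hE hd _ _ c =>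
  Or.inr ((VxK.vx rowRul rowBx0 rowRes rowExA rowExB h hs h0 hE hd c.cv c.core c.al c.nc).imp_right
    fun ⟨G₂, j₂, a1, a2, a3, a4, a5⟩ => ⟨G₂, j₂, ⟨a1, a2, a3, a4⟩, a5⟩)

end Pool.Agent.MP_ee8c61_ag.Q3NC
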