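import Pool.Agent.MP_ee8c61_ag.R3NC.SDefs
import Pool.Agent.MP_ee8c61_ag.M3F.Kit

/-!
Closed fields that depend polynomially on a parameter reduce to a unique constant field.
-/

namespace Pool.Agent.MP_ee8c61_ag.Q3NC

open M3 M3RESID M3F
open M3J (ex br)

noncomputable section

namespace RRed

variable {L : Type} [Field L] [Algebra ℂ L] (d : Dv L) (C : Co L 2) (u : L)

theorem hm_eq : hm C u = -fib C u := by rw [hm, fib, neg_sub]

theorem dv_ex (t : L) : d.δ (ex d C t) = 0 := M3J.dv_B d _ _

theorem dv_fib (t : L) : d.δ (t • fib C u) = ex d C t u := by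
  rw [M3J.dv2 d C, M3J.ap2 C (ex d C t) u, M3J.ex_z0, M3J.ex_z1]
  simp only [Derivation.smul_apply, fib_z0, fib_z1, smul_eq_mul, Derivation.leibniz, map_neg,
    mul_neg, C.comm 0 1 u]
  ring

theorem exx_zero (Θ : ℕ → L) : exx d C u Θ 0 = ex d C (Θ 0) := by simp [exx, sh]

theorem exx_succ (Θ : ℕ → L) (k : ℕ) :
    exx d C u Θ (k + 1) = ex d C (Θ (k + 1)) - Θ k • fib C u := by
  simp [exx, sh, hm_eq, sub_eq_add_neg]

theorem exx_add (Θ Θ' : ℕ → L) (k : ℕ) :
    exx d C u (Θ + Θ') k = exx d C u Θ k + exx d C u Θ' k := by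
  cases k with
  | zero => simp only [exx_zero, Pi.add_apply, M3J.ex_add]
  | succ k =>
    simp only [exx_succ, Pi.add_apply, M3J.ex_add, add_smul]
    abel

theorem exx_sub (Θ Θ' : ℕ → L) (k : ℕ) :
    exx d C u (Θ - Θ') k = exx d C u Θ k - exx d C u Θ' k := by
  rw [eq_sub_iff_add_eq, ← exx_add, sub_add_cancel]

theorem fs_add {Θ Θ' : ℕ → L} (h : Fs Θ) (h' : Fs Θ') : Fs (Θ + Θ') := by
  obtain ⟨n, hn⟩ := h
  obtain ⟨n', hn'⟩ := h'
  exact ⟨n + n', fun m hm => by simp [hn m (by omega), hn' m (by omega)]⟩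

theorem fs_sub {Θ Θ' : ℕ → L} (h : Fs Θ) (h' : Fs Θ') : Fs (Θ - Θ') := by
  obtain ⟨n, hn⟩ := h
  obtain ⟨n', hn'⟩ := h'
  exact ⟨n + n', fun m hm => by simp [hn m (by omega), hn' m (by omega)]⟩

/-- Existence of the reduction. -/
theorem red_ex (hu : ∃ X : VF L, X u ≠ 0) (n : ℕ) : ∀ v : ℕ → VF L, (∀ k, n < k → v k = 0) →
    d.δ (v 0) = 0 → (∀ k, d.δ (v (k + 1)) + v k u = 0) →
    ∃ (E : VF L) (Θ : ℕ → L), E u = 0 ∧ d.δ E = 0 ∧ (∀ k, n ≤ k → Θ k = 0) ∧
      v 0 = E + ex d C (Θ 0) ∧ ∀ k, v (k + 1) = ex d C (Θ (k + 1)) - Θ k • fib C u := by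
  induction n with
  | zero =>
    intro v hv h0 h1
    refine ⟨v 0, fun _ => 0, ?_, h0, fun _ _ => rfl, by rw [M3J.ex_zero, add_zero], fun k => ?_⟩
    · have := h1 0
      rwa [hv 1 one_pos, map_zero, zero_add] at this
    · rw [hv _ (Nat.succ_pos k), M3J.ex_zero, zero_smul, sub_zero]
  | succ n ih =>
    intro v hv h0 h1
    have ht : v (n + 1) u = 0 := by
      have := h1 (n + 1)
      rwa [hv _ (Nat.lt_succ_self _), map_zero, zero_add] at this
    obtain ⟨κ, hκ⟩ := fib_mul C hu ht
    obtain ⟨E, Θ, e1, e2, e3, e4, e5⟩ := ih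
      (fun k => if k = n then v n + ex d C κ else if n < k then 0 else v k)
      (fun k hk => by simp [hk, hk.ne'])
      (by
        by_cases hn : 0 = n
        · subst hn
          simp [dv_ex, h0]
        · simp [hn, h0])
      (fun k => by
        rcases lt_trichotomy (k + 1) n with h | h | h
        · have a1 : k + 1 ≠ n := h.ne
          have a2 : ¬ n < k + 1 := by omega
          have a3 : k ≠ n := by omega
          have a4 : ¬ n < k := by omega
          simp only [a1, a2, a3, a4, if_false]
          exact h1 k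
        · have a3 : k ≠ n := by omega
          have a4 : ¬ n < k := by omega
          simp only [h, a3, a4, if_true, if_false, map_add, dv_ex, add_zero]
          rw [← h]
          exact h1 k
        · have a1 : k + 1 ≠ n := h.ne'
          simp only [a1, h, if_true, if_false, map_zero, zero_add]
          by_cases hk : k = n
          · subst hk
            have := h1 k
            rw [hκ, dv_fib] at this
            simp only [if_true, Derivation.add_apply]
            linear_combination this
          · have a4 : n < k := by omega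
            simp [hk, a4])
    have hΘn : Θ n = 0 := e3 n le_rfl
    refine ⟨E, fun k => if k = n then -κ else Θ k, e1, e2, fun k hk => ?_, ?_, fun k => ?_⟩
    · have a : k ≠ n := by omega
      simp only [a, if_false]
      exact e3 k (by omega)
    · by_cases hn : 0 = n
      · subst hn
        simp only [if_true] at e4 ⊢
        rw [hΘn, M3J.ex_zero, add_zero] at e4
        rw [← e4, show -κ = 0 - κ by ring, M3J.ex_sub, M3J.ex_zero]
        abel
      · have a2 : ¬ n < 0 := by omega
        simpa only [hn, a2, if_false] using e4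
    · have e := e5 k
      rcases lt_trichotomy (k + 1) n with h | h | h
      · have a1 : k + 1 ≠ n := h.ne
        have a2 : ¬ n < k + 1 := by omega
        have a3 : k ≠ n := by omega
        simpa only [a1, a2, a3, if_false] using e
      · have a3 : k ≠ n := by omega
        simp only [h, a3, if_true, if_false] at e ⊢
        rw [hΘn, M3J.ex_zero] at e
        rw [show -κ = 0 - κ by ring, M3J.ex_sub, M3J.ex_zero, eq_sub_of_add_eq e]
        abel
      · have a1 : k + 1 ≠ n := h.ne'
        simp only [a1, if_false]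
        rw [e3 (k + 1) h.le, M3J.ex_zero]
        by_cases hk : k = n
        · subst hk
          simp [hκ]
        · simp only [hk, if_false]
          rw [e3 k (by omega), hv _ (by omega)]
          simp

/-- A potential whose exact field does not depend on the parameter vanishes. -/
theorem red_uni (hu : ∃ X : VF L, X u ≠ 0) {Θ : ℕ → L} (h : Fs Θ)
    (e : ∀ k, exx d C u Θ (k + 1) = 0) (k : ℕ) : Θ k = 0 := by
  obtain ⟨n, h⟩ := h
  obtain ⟨i, hi⟩ := fib_ne C hu
  have key : ∀ m k, n ≤ k + m → Θ k = 0 := by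
    intro m
    induction m with
    | zero => exact fun k hk => h k hk
    | succ m ih =>
      intro k hk
      have := congrArg (fun X : VF L => X (C.z i)) (e k)
      rw [exx_succ, ih (k + 1) (by omega), M3J.ex_zero] at this
      simpa [hi] using this
  exact key n k (by omega)

end RRed

open RRed

theorem rowRed : SRed := by
  intro L _ _ d C u hu v hv h
  obtain ⟨n, hn⟩ := hv
  obtain ⟨E, Θ, e1, e2, e3, e4, e5⟩ := red_ex d C u hu n v (fun k hk => hn k hk.le)
    (by simpa [sh] using h 0) fun k => h (k + 1)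
  refine ⟨E, e1, e2, Θ, ⟨n, e3⟩, fun k => ?_⟩
  cases k with
  | zero => rw [if_pos rfl, exx_zero, e4]
  | succ k => rw [if_neg k.succ_ne_zero, exx_succ, e5, zero_add]

theorem rowUq : SUq := by
  intro L _ _ d C u hu v E hE
  obtain ⟨Θ, f, e⟩ := hE
  refine ⟨fun E' hE' => ?_, fun v' Θ' f' e' => ⟨Θ + Θ', fs_add f f', fun k => ?_⟩⟩
  · obtain ⟨Θ', f', e'⟩ := hE'
    have z := red_uni d C u hu (fs_sub f f') (fun k => by
      have a := (e (k + 1)).symm.trans (e' (k + 1))
      rw [if_neg k.succ_ne_zero, if_neg k.succ_ne_zero, zero_add, zero_add] at a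
      rw [exx_sub, a, sub_self]) 0
    have a := (e 0).symm.trans (e' 0)
    rw [if_pos rfl, if_pos rfl, exx_zero, exx_zero, sub_eq_zero.1 z] at a
    exact add_right_cancel a
  · rw [e', e, exx_add, add_assoc]

end

end Pool.Agent.MP_ee8c61_ag.Q3NC
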