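import Pool.Agent.MP_ee8c61_ag.R3NC.TDefs

/-!
Exact fields of logarithmic bivectors restrict to exact fields.
-/

namespace Pool.Agent.MP_ee8c61_ag.N3.Q3IZ

open Pool.Agent.MP_ee8c61_ag.M3 Pool.Agent.MP_ee8c61_ag.Q3IZ Pool.Agent.MP_ee8c61_ag.Q3NC

set_option linter.unusedSectionVars false

variable [Base]

open H59 hiding pd
open M3 M3E M3RESID M3F
open M3J (ex br)

noncomputable section

namespace RRx

variable {k : Type} [Field k] [Algebra ℂ k] {P : Pl (KK 3) k} {C : Co (KK 3) 3} {i : Fin 3}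
  {C' : Co k 2} {d : Dv (KK 3)} {e : Dv k}

/-- The potential of a logarithmic bivector. -/
theorem pot (hC : P.RsC C i C') (h : C.At P.o i) (hd : Exp d P.o 0) (he : P.RsD d e)
    (R : Co (KK 3) 3) (C₀ : Co k 2) : ∃ t : (Fin 3 → KK 3) → k, t 0 = 0 ∧ ∀ γ, LgB R P.o γ →
      P.Rs (crl d R.D γ) (ex e C₀ (t γ)) ∧
        ∀ u ∈ P.o.F 0, P.Rs (lamv R.D γ u) (t γ • hm C₀ (P.π u)) := by
  have hJ := fr_J3 R C i
  refine ⟨fun γ => P.π (pr R γ (fr C i 0) / J3 R (fr C i)) * br C' (C₀.z 0) (C₀.z 1),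
    by simp [pr, P.π_zero], fun γ hl => ?_⟩
  obtain ⟨G, hG⟩ : ∃ G : Fin 3 → KK 3, G = fun a => pr R γ (fr C i a) / J3 R (fr C i) := ⟨_, rfl⟩
  have h1 := Pl.fr_coef (G := G) h (by simpa only [hG, Lam_frame R _ hJ, LgB] using hl)
  have e0 : pr R γ (fr C i 0) / J3 R (fr C i) = G 0 := by rw [hG]
  refine ⟨?_, fun u hu => ⟨fun m g hg => ?_, fun g hg => ?_⟩⟩
  · have r0 : P.Rs (C.th i) 0 := Pl.Rs_eul h.eul
    have := ((Pl.Rs.B he hd.reg ((hC.D h 0).smul (h1 0)) (hC.D h 1)).add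
      (Pl.Rs.B he hd.reg (r0.smul (h1 1)) (hC.D h 0))).add
      (Pl.Rs.B he hd.reg ((hC.D h 1).smul (h1 2)) r0)
    rw [smul_zero, e.B_zero, e.B_zero', add_zero, add_zero] at this
    beta_reduce
    rw [e0, ← M3J.ex_br e C' C₀, ← crl_frame R d _ hJ, ← hG]
    exact this
  · rw [lamv_ap, add_comm]
    exact hl 0 m u hu g hg
  · beta_reduce
    rw [lamv_ap, ← Lam_frame R _ hJ, ← hG, Pl.lam_rs hC h h1 hu hg, e0, M3J.br_chain C' C₀,
      Derivation.smul_apply, smul_eq_mul, mul_assoc]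
    simp [hm, br]

end RRx

theorem rowRx : TRx := by
  intro f la c l β M U D L _ _ S o H hS _ γ hγ hl
  have h := H.ok
  obtain ⟨b0, hb0⟩ := h.ne o
  obtain ⟨i0, hi0⟩ := lab_of hb0
  obtain ⟨C', hC'⟩ := exists_rch h hi0 hb0 hS.po
  obtain ⟨t, t0, ht⟩ := RRx.pot hC' (hS.po ▸ (cht_dat h hi0 hb0).adp)
    (hS.po ▸ exp_v0 h hS.top.1) hS.rd (M3.co 3) S.C
  have hx : xx 3 l ∈ S.P.o.F 0 := hS.po ▸ (H.E.bas 3 f M h).toBas1.ov_v o (xp 3 l)
  obtain ⟨N, hN⟩ := hγ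
  refine ⟨fun n => t (γ n), ⟨N, fun m h1 => (congrArg t (hN m h1)).trans t0⟩, fun n => ?_⟩
  refine (ht _ (hl n)).1.add ?_
  cases n with
  | zero =>
    have := (ht 0 fun m m' u _ u' _ => by simp [Lam]).2 _ hx
    rwa [t0] at this
  | succ n => exact (ht _ (hl n)).2 _ hx

end

end Pool.Agent.MP_ee8c61_ag.N3.Q3IZ
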