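import Pool.Agent.MP_ee8c61_ag.R3NC.TDefs
import Pool.Agent.MP_ee8c61_ag.R3FT.Asm
import Pool.Agent.MP_ee8c61_ag.N3.RIT

/-!
At a simple root the double curves of exponent zero are complete over the base.
-/

namespace Pool.Agent.MP_ee8c61_ag.N3.Q3IZ

open Pool.Agent.MP_ee8c61_ag.M3 Pool.Agent.MP_ee8c61_ag.Q3IZ Pool.Agent.MP_ee8c61_ag.Q3NC

set_option linter.unusedSectionVars false

variable [Base]

open H59 hiding pd
open M3 M3RESID M3F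
open M3E (eout)

theorem snc_of (P : Q3.POut) (dn : SDn) (nz : SNZ) : Q3FT.SNC := by
  intro f la b β Q M o j G H hM h0 h2 ho hj hG hV l
  by_contra hn
  obtain ⟨W, D, hW, hz⟩ := nz f la b β Q M H hM h0 (Q3FT.RT2B.der_ne h0 h2)
  have e0 : W.ex la (D.e o) = 0 := (Q3FT.RNn.ex_e D hW hM o).trans ho
  obtain ⟨C, hA, hC⟩ := P.ch f W H.ne hW (D.e o)
  obtain ⟨X, hX⟩ := P.av f la b β Q W _ H hW e0
  obtain ⟨Y, hY⟩ := P.as f la W C _ hW e0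
  have S : Q3.Sit0 f la b β Q W C (D.e o) := ⟨H, hW, e0, hA⟩
  have ok := P.ok _ _ _ _ _ _ _ _ _ _ S hX hY
  have key : ∀ v : DV (KK 3), W.v (D.e o) = v → ∀ Γ : DV v.kf, (∃ π, Γ.v π = 1) →
      (∀ m, v.pl.π (xx 3 m) ∈ Γ.F 0) → NC Γ (v.pl.π (xx 3 l)) →
      (∀ e, v.pl.RsD (dvf f la) e → Exp e Γ (0 : ℚ)) → False := by
    rintro _ rfl Γ g1 g2 g3 g4
    have cv : Cv (C.sd la b _ X Y).x Γ := ⟨g1, g2, _, g3⟩
    have ex : (C.sd la b _ X Y).ex Γ = 0 := RIT.eps_eq g1 (g4 _ hX.rd)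
    rcases hC with hD | ht
    · exact dn _ _ ok (P.small _ _ _ _ _ _ _ _ _ _ S hX hY hD.2.2) hD.1 ⟨Γ, l, cv, g3, ex⟩
    rcases ok.kvl Γ cv fun h => h.1 l g3 with ⟨k, hk⟩ | ⟨-, ⟨r, h3, h4⟩ | ⟨h3, -⟩⟩
    · refine hz C _ X Y S hX hY ht l Γ k ⟨cv, hk, ?_, g3⟩
      have h3 := hk.1
      rw [ex, SD.α, Finset.sum_eq_single k (fun i _ hi => by rw [hk.2.2 i hi, mul_zero])
        (fun h => absurd (Finset.mem_univ k) h), hk.2.1, mul_one] at h3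
      exact h3.symm
    · rw [ex] at h4
      have : (0 : ℚ) < r := by exact_mod_cast (by omega : 0 < r)
      exact (one_div_pos.2 this).ne h4
    · exact zero_ne_one (ex.symm.trans h3)
  have hx : ∀ m, (M.v o).pl.π (xx 3 m) ∈ G.F 0 := fun m => (hV.2.1 (xp 3 m)).2
  refine key _ (D.v o) G hG hx ⟨hx l, fun c hc => hn ⟨c, ?_⟩⟩ fun e he => hj ▸
    RIT.exp_cv hM (eout.cv 3 f M hM) (lv_of hM (eout.bas 3 f M hM).toBas1 rfl hx) hG hV ho he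
  exact ((Pl.π_congr (P := G.pl) (cst_F _ c) hc).trans (G.pl.π_cst c)).symm

end Pool.Agent.MP_ee8c61_ag.N3.Q3IZ
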