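import Pool.Agent.MP_ee8c61_ag.R3NC.Core
import Pool.Agent.MP_ee8c61_ag.R3NC.TopB
import Pool.Agent.MP_ee8c61_ag.R3NC.RRed
import Pool.Agent.MP_ee8c61_ag.R3NC.RLog
import Pool.Agent.MP_ee8c61_ag.R3NC.RInt
import Pool.Agent.MP_ee8c61_ag.R3NC.ROne
import Pool.Agent.MP_ee8c61_ag.R3NC.RDatN
import Pool.Agent.MP_ee8c61_ag.R3NC.RRx
import Pool.Agent.MP_ee8c61_ag.R3NC.RCls
import Pool.Agent.MP_ee8c61_ag.R3NC.RKitN
import Pool.Agent.MP_ee8c61_ag.R3NC.REqN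
import Pool.Agent.MP_ee8c61_ag.R3NC.REdgeN
import Pool.Agent.MP_ee8c61_ag.R3NC.RFlagN
import Pool.Agent.MP_ee8c61_ag.R3IZ.Asm

/-! Simple roots over a base: the double curves of exponent zero are complete. -/

namespace Pool.Agent.MP_ee8c61_ag.N3.Q3NC

open Pool.Agent.MP_ee8c61_ag.Q3IZ (rowEndB)
open Pool.Agent.MP_ee8c61_ag.Q3NC Pool.Agent.MP_ee8c61_ag.N3.Q3IZ

variable [Base]

theorem snz : SNZ :=
  have E := M3E.eout
  snz_of ⟨E, pout, rowNice E, rowDatN E, rowSd E, rowCls rowRed rowUq rowRx, rowBigN rowUq rowRx,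
    rowKitN, rowSwapN E, rowEdgeN rowLog rowTop rowKitN rowTwN (rowEqN rowKitN), rowFlagN E, svxn,
    rowDn, rowEndB⟩

theorem snc : Q3FT.SNC := snc_of pout rowDn snz

end Pool.Agent.MP_ee8c61_ag.N3.Q3NC
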