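import Pool.Agent.MP_ee8c61_ag.R3NC.TDefs
import Pool.Agent.MP_ee8c61_ag.R3IZ.RFlag
import Pool.Agent.MP_ee8c61_ag.Q3IZ.RDict

/-!
Simple roots: no core curve of exponent zero on which a coordinate is not constant; the assembly.
-/

namespace Pool.Agent.MP_ee8c61_ag.N3.Q3IZ

open Pool.Agent.MP_ee8c61_ag.M3 Pool.Agent.MP_ee8c61_ag.Q3IZ Pool.Agent.MP_ee8c61_ag.Q3NC

set_option linter.unusedSectionVars false

variable [Base]

open H59 hiding pd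
open M3 M3E M3RESID M3F
open M3Z (cmp Fl)

noncomputable section

/-- The rows that enter the assembly. -/
structure RowsN : Prop where
  E : EOut
  P : Q3.POut
  nice : TNice
  dat : TDatN
  sd : TSd
  cls : TCls
  big : TBigN
  kit : TKitN
  swap : TSwapN
  edge : TEdgeN
  flag : TFlagN
  vx : SVxN
  fin : SEnd

theorem Fn.pl {L k : Type} [Field L] [Algebra ℂ L] [Field k] [Algebra ℂ k] {M : Mod 3} {f : Po 3}
    {la : ℚ} {U : Cov M} {l : Fin 3} {P : Pl (KK 3) L} {G : Pl L k} {o j : M.J}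
    (h : Fn f la U l P G o j) : Fn f la U l P G.o.pl o j :=
  ⟨⟨h.fl.ok, h.fl.bas, h.fl.der, h.fl.cv, h.fl.unr, h.fl.po, h.fl.nrm, h.fl.isc⟩, h.t1, h.t2,
    h.nc⟩

theorem eul_uni {L k : Type} [Field L] [Algebra ℂ L] [Field k] [Algebra ℂ k] {G : Pl L k}
    (hn : ∃ π, G.o.v π = 1) {X : VF L} {κ κ' : ℂ} (h : EulK G.o X κ) (h' : EulK G.o X κ') :
    κ = κ' := by
  obtain ⟨y, hy⟩ := hn
  exact (algebraMap ℂ k).injective
    (((RDict.nor_of_eul h).2.2 y hy).symm.trans ((RDict.nor_of_eul h').2.2 y hy))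

theorem no_flagN (R : RowsN) {f : Po 3} {la : ℚ} {b : Polynomial ℂ} {β : Fin 3 → PX 3 (KK 3)}
    {Q : PX 3 (KK 3)} {M : Mod 3} {U : Cov M} {D : DX U.κ} {l : Fin 3} {c : ℂ}
    (H0 : Q3.Hyp0 f b β Q) (H : Hn f la c l M U D) (hb : c ≠ 0) (C : Ch f M) (ht : C.t = 0)
    (hP : C.P M.nu = C.D.pb U.P) (hB : ∀ o, ¬C.Dead o → U.Big o) :
    IsEmpty (Σ (o j : {o // U.Top la o}),
      {Γ : DV (M.v o.1).kf // Fn f la U l (M.v o.1).pl Γ.pl o.1 j.1}) := by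
  classical
  have hA := RFlag.alive R.E H.ok hP
  have hF := R.flag f la b β Q M U C l H.ok H.cov ht hP
  choose X hX using fun o : {o // U.Top la o} => R.P.av f la b β Q M o.1 H0 H.ok o.2.1
  choose Y hY using fun o : {o // U.Top la o} => R.P.as f la M C o.1 H.ok o.2.1
  choose p i0 hS using fun o : {o // U.Top la o} =>
    R.sd f la β M U o.1 (X o) H.ok H.cov o.2 (hX o)
  let S : ∀ o : {o // U.Top la o}, Sd (M.v o.1).kf U.κ := fun o =>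
    ⟨(M.v o.1).pl, (X o).Co, (X o).q, (X o).ψ, (X o).d, (X o).v, p o, i0 o⟩
  have hS' : ∀ o, (S o).OK f la β o.1 := hS
  have hE : ∀ o : {o // U.Top la o}, ∃ E, (∃ Z : VF (M.v o.1).kf, Z ((S o).P.π (xx 3 l)) ≠ 0) →
      Cls D l (S o) E := fun o => by
    by_cases h : ∃ Z : VF (M.v o.1).kf, Z ((S o).P.π (xx 3 l)) ≠ 0
    · obtain ⟨E, hE⟩ := R.cls f la c l β M U D _ (S o) o.1 H (hS' o) h
      exact ⟨E, fun _ => hE⟩
    · exact ⟨0, fun h' => absurd h' h⟩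
  choose E hE using hE
  have hx : ∀ (o j : {o // U.Top la o}) (k : Type) [Field k] [Algebra ℂ k] (G : Pl _ k),
      Fn f la U l (M.v o.1).pl G o.1 j.1 →
      ∃ Z : VF (M.v o.1).kf, Z ((S o).P.π (xx 3 l)) ≠ 0 := fun o j k _ _ G h =>
    (R.kit f la l β M U _ k (S o) G o.1 j.1 H.cov (hS' o) h).2.1
  have ha : ∀ i : M.J, (0 : ℚ) < M.a i := fun i => Nat.cast_pos.2 (H.ok.pos i)
  have hh : ∀ o j : M.J, C.hp o j = M.a j * (C.h j / M.a j - C.h o / M.a o) := fun o j => by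
    have := (ha j).ne'
    simp only [Ch.hp, Mod.q, Mod.aa, Pi.sub_apply, Pi.smul_apply, smul_eq_mul, Int.cast_natCast]
    field_simp
  have z0 : ∀ (o : {o // U.Top la o}) (Γ : DV (M.v o.1).kf), E o = 0 → EulK Γ (E o) 0 :=
    fun o Γ h m g _ => by simp [h]
  refine R.fin {o // U.Top la o} _ (fun o => C.h o.1 / M.a o.1) (fun o => M.a o.1)
    (fun φ => φ.1) (fun φ => φ.2.1) (fun φ κ => EulK φ.2.2.1 (E φ.1) κ) _ hb
    (fun i => ha i.1) ?_ ?_ ?_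
  · rintro ⟨o, j, Γ, h⟩ κ κ'
    exact eul_uni (G := Γ.pl) h.fl.nrm
  · rintro ⟨o, j, Γ, h⟩
    obtain ⟨G', h', t, t'⟩ := R.swap f la l M U _ _ _ (M.v o.1).pl Γ.pl (M.v j.1).pl o.1 j.1 H.cov
      h rfl
    have c1 := hE o (hx o j _ _ h)
    have c2 := hE j (hx j o _ _ h')
    refine ⟨⟨j, o, G'.o, h'.pl⟩, rfl, rfl, fun κ κ' e => ⟨?_, ?_⟩⟩
    · exact R.edge f la c l β M U D _ _ _ (S o) Γ.pl (S j) G' o.1 j.1 H (hS' o) (hS' j) h h' t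
        _ _ c1 c2 κ κ' (by simpa using e)
    · exact R.edge f la c l β M U D _ _ _ (S j) G' (S o) Γ.pl j.1 o.1 H (hS' j) (hS' o) h' h t'
        _ _ c2 c1 κ' κ (by simpa [add_comm] using e)
  · rintro ⟨o, j, Γ, h⟩
    have c1 := hE o (hx o j _ _ h)
    by_cases hg : U.Big o.1
    · exact Or.inl (z0 o Γ (R.big f la c l β M U D _ (S o) o.1 H (hS' o) (hx o j _ _ h) hg _ c1))
    have s : Q3.Sit0 f la b β Q M C o.1 := ⟨H0, H.ok, o.2.1, (hA _).2 o.2.2⟩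
    have k := R.P.ok f la b β Q M C o.1 (X o) (Y o) s (hX o) (hY o)
    obtain ⟨f2, f3⟩ := hF o.1 (X o) (Y o) s (hX o) (hY o)
    let j' : C.Nb o.1 := ⟨j.1, h.fl.isc.1, (hA _).2 j.2.2⟩
    rcases R.vx _ _ l (E o) k
      (R.P.small f la b β Q M C o.1 (X o) (Y o) s (hX o) (hY o) (not_not.1 (mt (hB _) hg))) ht
      c1.kill c1.dv Γ j' (f3 Γ j' h) with g0 | ⟨g1, g2⟩ | ⟨G₂, j₂, g1, g2, g3⟩
    · exact Or.inl (z0 o Γ g0)
    · refine Or.inr (Or.inl ⟨?_, g2⟩)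
      have g3 : 0 < C.hp o.1 j.1 := g1
      rw [hh] at g3
      exact sub_pos.1 ((mul_pos_iff_of_pos_left (ha _)).1 g3)
    · have h₂ := f2 G₂ j₂ g1
      refine Or.inr (Or.inr ⟨⟨o, ⟨j₂.1, h₂.t2⟩, G₂, h₂⟩, rfl, ?_, g3⟩)
      have g4 : 0 < C.hp o.1 j.1 + C.hp o.1 j₂.1 := g2
      rwa [hh, hh] at g4

theorem snz_of (R : RowsN) : SNZ := by
  intro f la b β Q M' H hM' h0 h1
  obtain ⟨M, Dm, hM, hU⟩ := R.nice f la M' hM'
  refine ⟨M, Dm, hM, fun C o X Y s hX hY ht l Γ j g => ?_⟩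
  obtain ⟨U, hU, hC⟩ := hU.resolve_left fun h => h C ht
  obtain ⟨D, hD⟩ := R.dat f la b β Q M U l H h0 hM hU
  have h := (R.flag f la b β Q M U C l hM hU ht (hC C ht).1 o X Y s hX hY).1 Γ j g
  exact (no_flagN R H ⟨R.E, hM, hU, hD⟩ h1 C ht (hC C ht).1 (hC C ht).2).false
    ⟨⟨o, h.t1⟩, ⟨j.1, h.t2⟩, Γ, h⟩

end

end Pool.Agent.MP_ee8c61_ag.N3.Q3IZ
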