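import Pool.Agent.MP_ee8c61_ag.R3NC.TDefs
import Pool.Agent.MP_ee8c61_ag.R3IZ.RE2

/-!
The equation of order one on a double curve, coefficient by coefficient.
-/

namespace Pool.Agent.MP_ee8c61_ag.N3.Q3IZ

open Pool.Agent.MP_ee8c61_ag.M3 Pool.Agent.MP_ee8c61_ag.Q3IZ Pool.Agent.MP_ee8c61_ag.Q3NC

set_option linter.unusedSectionVars false

variable [Base]

open H59 hiding pd
open M3 M3E M3RESID M3F
open M3J (ex br)
open M3Z (cmp Fl)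

noncomputable section

namespace REqN

variable {L k : Type} [Field L] [Algebra ℂ L] [Field k] [Algebra ℂ k] {P : Pl (KK 3) L}
  {G : Pl L k} {X : VF (KK 3)} {f : Po 3} {M : Mod 3} {o j : M.J}

/-- The component along the first divisor lies in the local ring of the curve. -/
theorem lc {la : ℚ} {U : Cov M} (hU : U.OK la) (h : Fl f M P G o j) (t1 : U.Top la o)
    (t2 : U.Top la j) {r : U.κ} (ha : M.In (U.bb r) (cmp P G.o.O))
    (ht : (U.t r)⁻¹ ∈ cmp P G.o.O) (hX : ∀ l, U.L2 U.c0 r X l) :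
    Lc (M.S.A (U.bb r)) (cmp P G.o.O) (X (M.η (U.bb r) o) / M.η (U.bb r) o) := by
  obtain ⟨l0, l1, l2, hl⟩ := h.labels ha
  have ut : Un (cmp P G.o.O) (U.t r) := ⟨hU.ac.ne r, ha _ (hU.ac.mem r), ht⟩
  obtain ⟨e, he⟩ := (M3L.mem_aw (hU.ac.mem r) (hU.ac.ne r)).1 (hX l0)
  have c0 : ∀ i, U.c0 i = ⌈U.P i⌉ := fun i => congrFun hU.cl i
  have top : ∀ i, U.Top la i → (M.kk + 1 - U.c0) i = 0 := fun i hi => by
    have : ⌈U.P i⌉ = (M.k i : ℤ) + 1 := by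
      rw [hi.2]
      exact_mod_cast Int.ceil_intCast (R := ℚ) ((M.k i : ℤ) + 1)
    simp [Mod.kk, c0, this]
  have hun := h.un_fl ha (M.kk + 1 - U.c0)
  rw [M3Z.fl_eq (top o t1) (top j t2)] at hun
  have hm : M.mon (U.bb r) (M.kk + 1 - U.c0) ∈ M.S.A (U.bb r) := h.bas.mon_mem _ _ fun i => by
    have : ⌈U.P i⌉ ≤ (M.k i : ℤ) + 1 := Int.ceil_le.2 (by
      simpa [Mod.nu] using hU.le i)
    simp only [Pi.zero_apply, Pi.sub_apply, Pi.add_apply, Pi.one_apply, Mod.kk, c0]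
    omega
  refine ⟨U.t r ^ e * M.mon (U.bb r) (M.kk + 1 - U.c0), mul_mem (pow_mem (hU.ac.mem r) e) hm,
    (ut.pow e).mul hun, ?_⟩
  rw [M3Z.Lb.un hl.h0] at he
  rw [Mod.η, M.S.η_some _ o l0 hl.h0, mul_assoc, mul_comm (M.mon _ _)]
  exact he

/-- The shifted term restricts to the shifted term. -/
theorem shift {Y : ℕ → VF (KK 3)} {V : ℕ → VF L} {W : ℕ → VF k} (h1 : ∀ n, P.Rs (Y n) (V n))
    (h2 : ∀ n, G.Rs (V n) (W n)) {x : KK 3} (hx : x ∈ cmp P G.o.O) (n : ℕ) :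
    sh Y n x ∈ cmp P G.o.O ∧ G.π (P.π (sh Y n x)) = sh W n (G.π (P.π x)) := by
  cases n with
  | zero =>
    simp only [sh, Derivation.zero_apply]
    exact ⟨zero_mem _, by rw [P.π_zero, G.π_zero]⟩
  | succ n =>
    have e := (h1 n).2 x hx.1
    exact ⟨⟨(h1 n).ap hx.1, e ▸ (h2 n).ap hx.2⟩, (congrArg G.π e).trans ((h2 n).2 _ hx.2)⟩

end REqN

theorem rowEqN : OfEqN := by
  intro hK f la c l β M U D L L' k _ _ _ _ _ _ S G S' G' o j hs hS hS' hF hF' hT e r he hr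
  have h := hF.fl
  have h' := hF'.fl
  obtain ⟨-, -, -, -, -, -, k7⟩ := hK f la l β M U L k S G o j hs.cov hS hF
  choose V W h1 h2 using fun n => (k7 r hr).2 (D.X1 r n) (hs.dx.x1 r n)
  refine ⟨W, (hs.dx.f1 r).imp fun n₀ hn m hm => ?_, fun n v v' ν ν' hR hR' hn hn' => ?_⟩
  · have e1 : V m = 0 := (h1 m).uniq (hn m hm ▸ Pl.Rs.zero)
    exact (h2 m).uniq (e1 ▸ Pl.Rs.zero)
  have ov := h.isc.2.1
  have ac := hs.cov.ac
  obtain ⟨ha, ht⟩ := (ac.gen r _ ov).1 hr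
  have ha' := (hT.inn _).1 ha
  obtain ⟨Z, hZ, eZ⟩ := RE2.split (X := D.X0 r n) h ha
  obtain ⟨m0, e0⟩ := RE2.unit hR hn hZ
  obtain ⟨m1, e1⟩ := RE2.nor h ha hR hn
  have hc := REqN.lc hs.cov h hF.t1 hF.t2 ha ht (hs.dx.x0 r n)
  have m2 := hc.mem' ha
  have e2 := (hT.lc _ ha _ hc).2.symm.trans (RE2.nor h' ha' hR' hn').2
  obtain ⟨p, hp⟩ := hs.dx.e1 r n
  obtain ⟨m6, e6⟩ := REqN.shift h1 h2 (x := xx 3 l) (ov (xp 3 l)) n
  have e3 : S.P.π (ip 3 f) = 0 := by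
    have := ((h.bas.gen_v o _ _).1 (h.bas.gen_f _)).2
    have h3 := h.ok.pos o
    rw [← h.po, Pi.neg_apply, neg_neg, Mod.aa] at this
    exact M3Z.pi_F1 (Or.inr (by omega))
  have nat : ∀ m : ℕ, (m : KK 3) ∈ cmp S.P G.o.O ∧ G.π (S.P.π m) = m := fun m =>
    ⟨natCast_mem _ m, by rw [M3Z.pi_nat, M3Z.pi_nat]⟩
  obtain ⟨c', e7, e8⟩ : ∃ c' : ℂ, (if n = 0 then algebraMap ℂ (KK 3) c else 0) =
      algebraMap ℂ _ c' ∧ (if n = 0 then algebraMap ℂ k c else 0) = algebraMap ℂ _ c' :=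
    ⟨if n = 0 then c else 0, by split_ifs <;> simp, by split_ifs <;> simp⟩
  have m3 := mul_mem (nat (M.a o)).1 m2
  have m4 := mul_mem (nat (M.a j)).1 m1
  have m5 := mul_mem (ov f) (ov p)
  have m7 := add_mem (add_mem m0 m3) m4
  have m8 := add_mem (M3Z.cst_cmp (P := S.P) (G := G) c') m5
  rw [e8, ← he _ _ (h2 n), ← hS.rd _ _ (h1 n), eq_sub_of_add_eq (eq_sub_of_add_eq hp), eZ, e7,
    M3Z.p2_sub (sub_mem m8 m7) m6, M3Z.p2_sub m8 m7,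
    M3Z.p2_add (M3Z.cst_cmp _) m5, M3Z.p2_add (add_mem m0 m3) m4, M3Z.p2_add m0 m3,
    M3Z.p2_mul (nat _).1 m2, M3Z.p2_mul (nat _).1 m1, M3Z.p2_mul (ov f) (ov p), M3Z.p2_cst,
    (nat _).2, (nat _).2, e0, e1, e2, e3, e6, G.π_zero]
  ring

end

end Pool.Agent.MP_ee8c61_ag.N3.Q3IZ
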