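import Pool.Agent.MP_ee8c61_ag.Q3IZ.SDefs

/-!
Simple roots, curves that are not complete: fields that depend polynomially on a parameter; the
statements.
-/

namespace Pool.Agent.MP_ee8c61_ag.Q3NC

open M3 M3RESID M3F Q3IZ Pool.Agent.MP_cce4c9_lc.H87
open M3J (ex br)

noncomputable section

/-- The coefficients after multiplication by the parameter. -/
def sh {α : Type} [Zero α] (a : ℕ → α) : ℕ → α
  | 0 => 0
  | n + 1 => a n

/-- Finitely many coefficients are not zero. -/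
def Fs {α : Type} [Zero α] (a : ℕ → α) : Prop := ∃ n, ∀ m, n ≤ m → a m = 0

section Surf

variable {L k : Type} [Field L] [Algebra ℂ L] [Field k] [Algebra ℂ k]

/-- The Hamiltonian field. -/
def hm (C : Co L 2) (u : L) : VF L := C.D 0 u • C.D 1 - C.D 1 u • C.D 0

/-- The coefficients of the exact field with potential `Θ`. -/
def exx (d : Dv L) (C : Co L 2) (u : L) (Θ : ℕ → L) (n : ℕ) : VF L :=
  ex d C (Θ n) + sh Θ n • hm C u

/-- Modulo exact fields `v` is the field `E`, which does not depend on the parameter. -/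
def Rd (d : Dv L) (C : Co L 2) (u : L) (v : ℕ → VF L) (E : VF L) : Prop :=
  ∃ Θ, Fs Θ ∧ ∀ n, v n = (if n = 0 then E else 0) + exx d C u Θ n

/-- A core curve of exponent zero on which `x l` is not constant. -/
structure Cn (D : SD L) (l : Fin 3) (Γ : DV L) (j : D.A) : Prop where
  cv : Cv D.x Γ
  core : D.Core j Γ
  al : D.al j = 0
  nc : NC Γ (D.x l)

end Surf

/-- A statement about all surfaces with a function. -/
def AllU (p : ∀ {L : Type} [Field L] [Algebra ℂ L], Dv L → Co L 2 → L → Prop) : Prop :=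
  ∀ (L : Type) [Field L] [Algebra ℂ L] (d : Dv L) (C : Co L 2) (u : L), (∃ X : VF L, X u ≠ 0) →
    p d C u

/-- Closed fields reduce. -/
def SRed : Prop := AllU fun {L} _ _ d C u => ∀ v : ℕ → VF L, Fs v →
  (∀ n, d.δ (v n) + sh v n u = 0) → ∃ E, E u = 0 ∧ d.δ E = 0 ∧ Rd d C u v E

/-- The reduction is unique and does not change when an exact field is added. -/
def SUq : Prop := AllU fun {L} _ _ d C u => ∀ (v : ℕ → VF L) (E : VF L), Rd d C u v E →
  (∀ E', Rd d C u v E' → E = E') ∧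
    ∀ (v' : ℕ → VF L) (Θ : ℕ → L), Fs Θ → (∀ n, v' n = v n + exx d C u Θ n) → Rd d C u v' E

/-- The normal components along a curve of exponent zero on which `u` is not constant. -/
def SLog : Prop := AllU fun {L} _ _ d C u => ∀ (k : Type) [Field k] [Algebra ℂ k] (G : Pl L k)
  (e : Dv k) (v : ℕ → VF L) (E : VF L),
  FiniteDimensional (IntermediateField.adjoin ℂ (Set.range C.z)) L → (∃ π, G.o.v π = 1) →
  NC G.o u → Exp d G.o 0 → G.RsD d e → Rd d C u v E → E u = 0 → (∀ n, v n ∈ LV G.o 0) →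
  ∃ (ν : k) (w : ℕ → VF k), Fs w ∧ Nor G E ν ∧
    ∀ n, Nor G (v n) ((if n = 0 then ν else 0) - (e.δ (w n) + sh w n (G.π u)))

/-- On a curve a function that does not depend on the parameter is not exact. -/
def STop : Prop := ∀ (k : Type) [Field k] [Algebra ℂ k] (e : Dv k) (u c : k) (w : ℕ → VF k),
  IsFF ℂ k → u ∉ Set.range (algebraMap ℂ k) → Fs w →
  (∀ n, e.δ (w n) + sh w n u = if n = 0 then c else 0) → c = 0

/-- A closed field along the fibres forces integral exponents. -/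
def SInt : Prop := AllZ fun {L _} _ _ Z => ∀ t : L, (∃ X : VF L, X t ≠ 0) → Z.v t = 0 → Z.v ≠ 0 →
  ∀ (Γ : DV L) (a : ℚ), Hor (Kz t) Γ → Exp Z.d Γ a → ∃ n : ℤ, a = n

/-- Two horizontal curves of exponent zero. -/
def STwo : Prop := AllZ fun {L _} _ _ Z => ∀ (t : L) (G₁ G₂ : DV L), (∃ X : VF L, X t ≠ 0) →
  Z.v t = 0 → G₁ ≠ G₂ → Hor (Kz t) G₁ → Hor (Kz t) G₂ → Exp Z.d G₁ 0 → Exp Z.d G₂ 0 →
  (∀ Γ, Hor (Kz t) Γ → Exp Z.d Γ 0 ∨ Exp Z.d Γ 1) → ∀ κ, EulK G₂ Z.v κ → EulK G₁ Z.v (-κ)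

/-- One horizontal curve of exponent zero. -/
def SOne : Prop := AllZ fun {L _} _ _ Z => ∀ (t : L) (G : DV L), (∃ X : VF L, X t ≠ 0) →
  Z.v t = 0 → Hor (Kz t) G → Exp Z.d G 0 → (∀ Γ, Hor (Kz t) Γ → Γ ≠ G → Exp Z.d Γ 1) →
  ∀ κ, EulK G Z.v κ → κ = 0

def OfOne : Prop := STwo → SOne

/-- The vertex of a divisor that is contracted to a curve. -/
def SVxN : Prop := ∀ (L : Type) [Field L] [Algebra ℂ L] (D : SD L) (l : Fin 3) (E : VF L),
  Q3.OK1 D → D.Small → D.t0 = 0 → E (D.x l) = 0 → D.d.δ E = 0 → ∀ G j, Cn D l G j →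
  E = 0 ∨ (0 < D.h j ∧ ∀ κ, EulK G E κ → κ = 0) ∨
    ∃ G₂ j₂, Cn D l G₂ j₂ ∧ 0 < D.h j + D.h j₂ ∧ ∀ κ, EulK G₂ E κ → EulK G E (-κ)

def OfVxN : Prop := SInt → STwo → SOne → SVxN

/-- On a wall every curve of exponent zero is complete. -/
def SDn : Prop := ∀ (L : Type) [Field L] [Algebra ℂ L] (D : SD L), Q3.OK1 D → D.Small →
  0 < D.t0 → ¬D.Bad

end

end Pool.Agent.MP_ee8c61_ag.Q3NC
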