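import Pool.Agent.MP_ee8c61_ag.R3IZ.RDat
import Pool.Agent.MP_ee8c61_ag.R3NC.SDefs

/-!
Coefficients of the powers of one parameter at `s = -la`.
-/

namespace Pool.Agent.MP_ee8c61_ag.N3.Q3IZ.NDat

open Pool.Agent.MP_ee8c61_ag.M3 Pool.Agent.MP_ee8c61_ag.Q3IZ

set_option linter.unusedSectionVars false

open H59 hiding pd
open M3 M3L M3RESID Finset MvPolynomial
open M3B1 (pd)
open Q3NC (sh Fs)

noncomputable section

/-- The substitution `s = -la`, `ξ i = 0` for `i ≠ l`. -/
def sb (la : ℚ) (l : Fin 3) : PX 3 (KK 3) →+* Polynomial (KK 3) :=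
  eval₂Hom Polynomial.C fun i => i.elim (Polynomial.C (-(la : KK 3)))
    fun i => if i = l then Polynomial.X else 0

/-- The coefficient of the power `k` of the parameter `l`. -/
def cf (la : ℚ) (l : Fin 3) (k : ℕ) : PX 3 (KK 3) →+ KK 3 :=
  AddMonoidHom.mk' (fun P => (sb la l P).coeff k) fun _ _ => by
    simp only [map_add, Polynomial.coeff_add]

/-- The same coefficient of the derivative in `s`. -/
def cf1 (la : ℚ) (l : Fin 3) (k : ℕ) : PX 3 (KK 3) →+ KK 3 :=
  AddMonoidHom.mk' (fun P => cf la l k (pderiv none P)) fun _ _ => by simp only [map_add]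

variable {la : ℚ} {l : Fin 3} {k : ℕ}

theorem cf_ap (P : PX 3 (KK 3)) : cf la l k P = (sb la l P).coeff k := rfl

theorem cf1_ap (P : PX 3 (KK 3)) : cf1 la l k P = cf la l k (pderiv none P) := rfl

theorem sb_C (a : KK 3) : sb la l (C a) = Polynomial.C a := eval₂Hom_C _ _ a

theorem sb_none : sb la l (X none) = Polynomial.C (-(la : KK 3)) := eval₂Hom_X' _ _ _

theorem sb_some (i : Fin 3) : sb la l (X (some i)) = if i = l then Polynomial.X else 0 :=
  eval₂Hom_X' _ _ _

theorem cf_fin (la : ℚ) (l : Fin 3) (P : PX 3 (KK 3)) : Fs fun k => cf la l k P :=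
  ⟨(sb la l P).natDegree + 1, fun _ hk => Polynomial.coeff_eq_zero_of_natDegree_lt hk⟩

theorem cf_C_mul (a : KK 3) (P : PX 3 (KK 3)) : cf la l k (C a * P) = a * cf la l k P := by
  rw [cf_ap, map_mul, sb_C, Polynomial.coeff_C_mul, cf_ap]

theorem cf_none_mul (P : PX 3 (KK 3)) : cf la l k (X none * P) = -(la : KK 3) * cf la l k P := by
  rw [cf_ap, map_mul, sb_none, Polynomial.coeff_C_mul, cf_ap]

theorem cf_some_mul (i : Fin 3) (P : PX 3 (KK 3)) : cf la l k (X (some i) * P) =
    if i = l then sh (fun k => cf la l k P) k else 0 := by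
  rw [cf_ap, map_mul, sb_some]
  split_ifs
  · cases k with
    | zero => simp [sh]
    | succ k => rw [Polynomial.coeff_X_mul]; rfl
  · simp

theorem cf_C (a : KK 3) : cf la l k (C a) = if k = 0 then a else 0 := by
  rw [cf_ap, sb_C, Polynomial.coeff_C]

theorem cf_zero (P : PX 3 (KK 3)) : cf la l 0 P = ev0 la P := by
  induction P using MvPolynomial.induction_on with
  | C c => rw [cf_C, ev0_C, if_pos rfl]
  | add p q hp hq => simp only [map_add, hp, hq]
  | mul_X p i hp =>
    rw [mul_comm, map_mul (ev0 la), ← hp]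
    rcases i with _ | i
    · rw [cf_none_mul, ev0_none, map_neg, map_ratCast]
    · rw [cf_some_mul, ev0_some]
      simp [sh]

theorem cf1_zero (P : PX 3 (KK 3)) : cf1 la l 0 P = ev1 la P := by
  rw [cf1_ap, ev1_ap, cf_zero]

theorem cf_dpol (D : VF (KK 3)) (P : PX 3 (KK 3)) :
    cf la l k (dpol _ D P) = D (cf la l k P) := by
  induction P using MvPolynomial.induction_on generalizing k with
  | C c =>
    rw [dpol_C, cf_C, cf_C]
    split_ifs <;> simp
  | add p q hp hq => simp only [map_add, hp, hq]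
  | mul_X p i hp =>
    rw [Derivation.leibniz, dpol_X, smul_zero, zero_add, smul_eq_mul, mul_comm p]
    rcases i with _ | i
    · have : D (-(la : KK 3)) = 0 := by
        rw [← map_ratCast (algebraMap ℂ (KK 3)), map_neg, Derivation.map_algebraMap, neg_zero]
      rw [cf_none_mul, cf_none_mul, hp, Derivation.leibniz, this, smul_zero, add_zero, smul_eq_mul]
    · rw [cf_some_mul, cf_some_mul]
      split_ifs
      · cases k <;> simp [sh, hp]
      · simp

theorem cf_aeval (b : Polynomial ℂ) : cf la l k (Polynomial.aeval (X none : PX 3 (KK 3)) b) =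
    if k = 0 then algebraMap ℂ _ (b.eval (-(la : ℂ))) else 0 := by
  have : sb la l (Polynomial.aeval (X none : PX 3 (KK 3)) b) =
      Polynomial.C (algebraMap ℂ _ (b.eval (-(la : ℂ)))) := by
    induction b using Polynomial.induction_on' with
    | add p q hp hq => simp only [map_add, hp, hq, Polynomial.eval_add]
    | monomial n c =>
      rw [Polynomial.aeval_monomial, Polynomial.eval_monomial, map_mul, map_pow, sb_none,
        MvPolynomial.algebraMap_apply, sb_C, map_mul, map_pow, map_mul, map_pow, map_neg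
        (algebraMap ℂ (KK 3)), map_ratCast]
  rw [cf_ap, this, Polynomial.coeff_C]

theorem ev_cf (la : ℚ) (l : Fin 3) (k : ℕ) : Ev (cf la l k) := by
  refine ⟨cf_C_mul, fun A P hP => ?_⟩
  have h1 : ∀ a ∈ A, Polynomial.C a ∈ Polynomial.lifts (A.val : A →+* KK 3) := fun a ha =>
    Polynomial.C'_mem_lifts ⟨⟨a, ha⟩, rfl⟩
  have h2 : sb la l P ∈ Polynomial.lifts (A.val : A →+* KK 3) := by
    rw [sb, coe_eval₂Hom, eval₂_eq]
    refine sum_mem fun e _ => mul_mem (h1 _ (hP e)) (prod_mem fun o _ => pow_mem ?_ _)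
    rcases o with _ | i
    · refine h1 _ ?_
      rw [← map_ratCast (algebraMap ℂ (KK 3))]
      exact neg_mem (A.algebraMap_mem _)
    · rw [Option.elim_some]
      split_ifs
      exacts [Polynomial.X_mem_lifts _, zero_mem _]
  obtain ⟨a, ha⟩ := (Polynomial.lifts_iff_coeff_lifts _).1 h2 k
  rw [cf_ap, ← ha]
  exact a.2

theorem ev_cf1 (la : ℚ) (l : Fin 3) (k : ℕ) : Ev (cf1 la l k) :=
  ⟨fun a P => by rw [cf1_ap, cf1_ap, pderiv_C_mul, cf_C_mul], fun A P hP =>
    (ev_cf la l k).mem A _ fun e => by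
      simpa using pderiv_mem (g := 1) (fun e => by simpa using hP e) none e⟩

variable [Base] {f : Po 3}

theorem cf_NN (m : Fin 3) (P : PX 3 (KK 3)) : cf la l k (NN f m P) =
    Nb (dvf f la) (M3.co 3).D m (cf la l k P) + pd 3 m (xx 3 l) * sh (fun k => cf la l k P) k := by
  rw [Nb, Dv.smul, show (M3.co 3).D m = pd 3 m from rfl, CCB.dvf_pd, NN, add_mul, sum_mul]
  have h1 : ∀ i, cf la l k (X (some i) * C (pd 3 m (xx 3 i)) * P) =
      if i = l then pd 3 m (xx 3 l) * sh (fun k => cf la l k P) k else 0 := fun i => by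
    rw [mul_comm (X _), mul_assoc, cf_C_mul, cf_some_mul]
    split_ifs with h
    · rw [h]
    · rw [mul_zero]
  rw [map_add, map_add, map_sum, cf_dpol, mul_comm (X _), mul_assoc, cf_C_mul, cf_none_mul]
  simp only [h1, sum_ite_eq', mem_univ, if_true]
  ring

theorem pd_NN (m : Fin 3) (P : PX 3 (KK 3)) : pderiv none (NN f m P) =
    NN f m (pderiv none P) + C ((ip 3 f)⁻¹ * pd 3 m (ip 3 f)) * P := by
  have h2 : ∀ i, pderiv none (X (some i) : PX 3 (KK 3)) = 0 := fun i => pderiv_X_of_ne (by simp)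
  simp only [NN, h2, map_add, map_sum, Derivation.leibniz, pderiv_C, smul_eq_mul, mul_zero,
    add_zero, pderiv_dpol, pderiv_X_self, mul_one, sum_const_zero, zero_add]
  ring

theorem cf1_NN (m : Fin 3) (P : PX 3 (KK 3)) : cf1 la l k (NN f m P) =
    Nb (dvf f la) (M3.co 3).D m (cf1 la l k P) + pd 3 m (xx 3 l) * sh (fun k => cf1 la l k P) k +
      (ip 3 f)⁻¹ * pd 3 m (ip 3 f) * cf la l k P := by
  simp only [cf1_ap]
  rw [pd_NN, map_add, cf_NN, cf_C_mul]

end

end Pool.Agent.MP_ee8c61_ag.N3.Q3IZ.NDat
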