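import Pool.Agent.MP_ee8c61_ag.R3NC.Cf

/-!
The coefficients of curls, gradients and divergences with one parameter.
-/

namespace Pool.Agent.MP_ee8c61_ag.N3.Q3IZ.NDat

open Pool.Agent.MP_ee8c61_ag.M3 Pool.Agent.MP_ee8c61_ag.Q3IZ

set_option linter.unusedSectionVars false

open H59 hiding pd
open M3 M3L M3RESID Finset MvPolynomial
open M3B1 (pd)
open Q3NC (sh Fs)

noncomputable section

variable {la : ℚ} {l : Fin 3} {k : ℕ}

theorem sh_pi {α β : Type} [Zero β] (a : ℕ → α → β) (k : ℕ) (m : α) :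
    sh a k m = sh (fun k => a k m) k := by cases k <;> rfl

theorem sh_vf (a : ℕ → Fin 3 → KK 3) (k : ℕ) : sh (fun k => vf (a k)) k = vf (sh a k) := by
  cases k
  · simp [sh, vf]
  · rfl

theorem fs_pi {β : Type} [Zero β] {a : ℕ → Fin 3 → β} (h : ∀ m, Fs fun k => a k m) : Fs a := by
  choose n hn using h
  exact ⟨univ.sup n, fun k hk => funext fun m => hn m k ((le_sup (mem_univ m)).trans hk)⟩

theorem fs_vf {a : ℕ → Fin 3 → KK 3} (h : Fs a) : Fs fun k => vf (a k) := by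
  obtain ⟨n, hn⟩ := h
  exact ⟨n, fun k hk => by simp [hn k hk, vf]⟩

theorem cf1_fin (la : ℚ) (l : Fin 3) (P : PX 3 (KK 3)) : Fs fun k => cf1 la l k P := cf_fin la l _

variable [Base] {f : Po 3}

theorem vf_curl (g : Fin 3 → PX 3 (KK 3)) (y : KK 3) :
    vf (fun m => cf la l k (curl (NN f) g m)) y =
      crl (dvf f la) (M3.co 3).D (fun m => cf la l k (g m)) y +
        Lam (M3.co 3).D (sh (fun k m => cf la l k (g m)) k) (xx 3 l) y := by
  rw [crl_eq _ (M3.co 3).comm, sum_ap, vf_ap]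
  simp only [Fin.sum_univ_three, curl, Matrix.cons_val_zero, Matrix.cons_val_one,
    Matrix.cons_val, map_sub, cf_NN, Lam, wg, Derivation.smul_apply, smul_eq_mul, sh_pi,
    show ∀ l, (M3.co 3).D l = pd 3 l from fun _ => rfl]
  ring

theorem vf_curl1 (g : Fin 3 → PX 3 (KK 3)) (y : KK 3) :
    vf (fun m => cf1 la l k (curl (NN f) g m)) y =
      crl (dvf f la) (M3.co 3).D (fun m => cf1 la l k (g m)) y +
        Lam (M3.co 3).D (sh (fun k m => cf1 la l k (g m)) k) (xx 3 l) y +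
        Lam (M3.co 3).D (fun m => cf la l k (g m)) (ip 3 f) y / ip 3 f := by
  rw [crl_eq _ (M3.co 3).comm, sum_ap, vf_ap]
  simp only [Fin.sum_univ_three, curl, Matrix.cons_val_zero, Matrix.cons_val_one,
    Matrix.cons_val, map_sub, cf1_NN, Lam, wg, Derivation.smul_apply, smul_eq_mul, sh_pi,
    show ∀ l, (M3.co 3).D l = pd 3 l from fun _ => rfl]
  ring

theorem cf_div (V : Fin 3 → PX 3 (KK 3)) : cf la l k (∑ m, NN f m (V m)) =
    (dvf f la).δ (vf fun m => cf la l k (V m)) +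
      sh (fun k => vf fun m => cf la l k (V m)) k (xx 3 l) := by
  rw [map_sum, δ_vf, sh_vf, vf_ap, ← sum_add_distrib]
  exact sum_congr rfl fun m _ => by rw [cf_NN, sh_pi, mul_comm]

theorem cf1_div (V : Fin 3 → PX 3 (KK 3)) : cf1 la l k (∑ m, NN f m (V m)) =
    (dvf f la).δ (vf fun m => cf1 la l k (V m)) +
      sh (fun k => vf fun m => cf1 la l k (V m)) k (xx 3 l) +
      vf (fun m => cf la l k (V m)) (ip 3 f) / ip 3 f := by
  rw [map_sum, δ_vf, sh_vf, vf_ap, vf_ap, sum_div, ← sum_add_distrib, ← sum_add_distrib]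
  refine sum_congr rfl fun m _ => ?_
  rw [cf1_NN, sh_pi]
  ring

theorem div_curl (β g : Fin 3 → PX 3 (KK 3)) :
    ∑ m, NN f m (β m - curl (NN f) g m) = ∑ m, NN f m (β m) := by
  simp [Fin.sum_univ_three, curl, NN_sub, NN_comm 1 0, NN_comm 2 0, NN_comm 2 1]

theorem curl_diff (β g g' : Fin 3 → PX 3 (KK 3)) (τ : PX 3 (KK 3)) (m : Fin 3) :
    β m - curl (NN f) g m - (β m - curl (NN f) g' m) =
      -curl (NN f) (fun m => g m - g' m - NN f m τ) m := by
  fin_cases m <;> simp [curl, NN_sub, NN_comm 1 0, NN_comm 2 0, NN_comm 2 1] <;> ring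

variable {b : Polynomial ℂ} {β : Fin 3 → PX 3 (KK 3)} {Q : PX 3 (KK 3)}

theorem bs_div (h : BSd f b β Q) : ∑ m, NN f m (β m) =
    Polynomial.aeval (X none : PX 3 (KK 3)) b - C (ip 3 f) * Q :=
  (sub_eq_of_eq_add' h.eq).symm

theorem pd_aeval (b : Polynomial ℂ) : pderiv none (Polynomial.aeval (X none : PX 3 (KK 3)) b) =
    Polynomial.aeval (X none : PX 3 (KK 3)) b.derivative := by
  have := ((pderiv none : Derivation (KK 3) (PX 3 (KK 3)) _).restrictScalars ℂ).map_aeval b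
    (X none)
  rwa [Derivation.restrictScalars_apply, Derivation.restrictScalars_apply, pderiv_X_self,
    smul_eq_mul, mul_one] at this

theorem cf_bs (h : BSd f b β Q) (hb : b.eval (-(la : ℂ)) = 0) (l : Fin 3) (k : ℕ) :
    ∃ p : Po 3, cf la l k (∑ m, NN f m (β m)) = ip 3 f * ip 3 p := by
  obtain ⟨p, hp⟩ := (ev_cf la l k).mem (ip 3).range Q h.reg
  refine ⟨-p, ?_⟩
  rw [bs_div h, map_sub, cf_aeval, cf_C_mul, hb, map_zero, ite_self, map_neg, ← hp]
  simp

theorem cf1_bs (h : BSd f b β Q) (la : ℚ) (l : Fin 3) (k : ℕ) :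
    ∃ p : Po 3, cf1 la l k (∑ m, NN f m (β m)) =
      (if k = 0 then algebraMap ℂ _ (b.derivative.eval (-(la : ℂ))) else 0) + ip 3 f * ip 3 p := by
  obtain ⟨p, hp⟩ := (ev_cf1 la l k).mem (ip 3).range Q h.reg
  refine ⟨-p, ?_⟩
  rw [bs_div h, map_sub, (ev_cf1 la l k).lin, cf1_ap, pd_aeval, cf_aeval, map_neg, ← hp]
  simp [sub_eq_add_neg]

end

end Pool.Agent.MP_ee8c61_ag.N3.Q3IZ.NDat
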