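import Pool.Agent.MP_ee8c61_ag.R3NC.TDefs
import Pool.Agent.MP_ee8c61_ag.R3IZ.RFlag
import Pool.Agent.MP_ee8c61_ag.R3FT.Spec
import Pool.Agent.MP_ee8c61_ag.N3RESID.U3

/-!
Simple roots: the double curves of exponent zero are complete; the assembly.
-/

namespace Pool.Agent.MP_ee8c61_ag.N3.Q3IZ

open Pool.Agent.MP_ee8c61_ag.M3 Pool.Agent.MP_ee8c61_ag.Q3IZ Pool.Agent.MP_ee8c61_ag.Q3NC

set_option linter.unusedSectionVars false

variable [Base]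

open H59 hiding pd
open M3 M3E M3RESID M3F
open M3Z (cmp Fl)

noncomputable section

/-- The rows that enter the assembly. -/
structure RowsN : Prop where
  E : EOut
  P : Q3.POut
  nice : TNice
  dat : TDatN
  sd : TSd
  cls : TCls
  big : TBigN
  kit : TKitN
  swap : TSwapN
  edge : TEdgeN
  flag : TFlagN
  vx : SVxN
  dn : SDn
  fin : SEnd

theorem Fn.pl {L k : Type} [Field L] [Algebra ℂ L] [Field k] [Algebra ℂ k] {M : Mod 3} {f : Po 3}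
    {la : ℚ} {U : Cov M} {l : Fin 3} {P : Pl (KK 3) L} {G : Pl L k} {o j : M.J}
    (h : Fn f la U l P G o j) : Fn f la U l P G.o.pl o j :=
  ⟨⟨h.fl.ok, h.fl.bas, h.fl.der, h.fl.cv, h.fl.unr, h.fl.po, h.fl.nrm, h.fl.isc⟩, h.t1, h.t2, h.nc⟩

theorem eul_uniq {L : Type} [Field L] [Algebra ℂ L] {Γ : DV L} (h : ∃ π, Γ.v π = 1) {E : VF L}
    {κ κ' : ℂ} (h1 : EulK Γ E κ) (h2 : EulK Γ E κ') : κ = κ' := by
  obtain ⟨π, hπ⟩ := h
  have p0 : π ≠ 0 := fun e => by simp [e, Γ.zero] at hπ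
  have h3 := F_div (sub_mem (h2 1 π (Or.inr hπ.ge)) (h1 1 π (Or.inr hπ.ge))) π
  rw [hπ] at h3
  refine sub_eq_zero.1 (cst_F1 (L := L) (o := Γ) (F_of_eq h3 ?_))
  rw [map_sub]
  field_simp
  push_cast
  ring

theorem exists_cls (R : RowsN) {f : Po 3} {la : ℚ} {β : Fin 3 → PX 3 (KK 3)} {M : Mod 3}
    {U : Cov M} {D : DX U.κ} {l : Fin 3} {c : ℂ} (H : Hn f la c l M U D) {L : Type} [Field L]
    [Algebra ℂ L] {S : Sd L U.κ} {o : M.J} (hS : S.OK f la β o) :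
    ∃ E : VF L, (∃ Z : VF L, Z (S.P.π (xx 3 l)) ≠ 0) → Cls D l S E :=
  (Classical.em (∃ Z : VF L, Z (S.P.π (xx 3 l)) ≠ 0)).elim
    (fun h => (R.cls f la c l β M U D _ S o H hS h).imp fun _ e _ => e)
    fun h => ⟨0, fun e => absurd e h⟩

theorem no_flagN (R : RowsN) {f : Po 3} {la : ℚ} {b : Polynomial ℂ} {β : Fin 3 → PX 3 (KK 3)}
    {Q : PX 3 (KK 3)} {M : Mod 3} {U : Cov M} {D : DX U.κ} {l : Fin 3} {c : ℂ}
    (hy : Q3.Hyp0 f b β Q) (H : Hn f la c l M U D) (hb : c ≠ 0) (C : Ch f M) (ht : C.t = 0)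
    (hP : C.P M.nu = C.D.pb U.P) (hB : ∀ o, ¬C.Dead o → U.Big o) :
    IsEmpty (Σ (o j : {o // U.Top la o}),
      {Γ : DV (M.v o.1).kf // Fn f la U l (M.v o.1).pl Γ.pl o.1 j.1}) := by
  classical
  have hA := RFlag.alive R.E H.ok hP
  have hF := R.flag f la b β Q M U C l H.ok H.cov ht hP
  choose X hX using fun o : {o // U.Top la o} => R.P.av f la b β Q M o.1 hy H.ok o.2.1
  choose Y hY using fun o : {o // U.Top la o} => R.P.as f la M C o.1 H.ok o.2.1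
  choose p i0 hS using fun o : {o // U.Top la o} =>
    R.sd f la β M U o.1 (X o) H.ok H.cov o.2 (hX o)
  let S : ∀ o : {o // U.Top la o}, Sd (M.v o.1).kf U.κ := fun o =>
    ⟨(M.v o.1).pl, (X o).Co, (X o).q, (X o).ψ, (X o).d, (X o).v, p o, i0 o⟩
  have hS' : ∀ o, (S o).OK f la β o.1 := hS
  choose E hE using fun o : {o // U.Top la o} => exists_cls R H (hS' o)
  have nc : ∀ (o j : {o // U.Top la o}) {k : Type} [Field k] [Algebra ℂ k]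
      (G : Pl (M.v o.1).kf k), Fn f la U l (M.v o.1).pl G o.1 j.1 →
      ∃ Z : VF (M.v o.1).kf, Z ((S o).P.π (xx 3 l)) ≠ 0 := fun o j _ _ _ G h =>
    (R.kit f la l β M U _ _ (S o) G o.1 j.1 H.cov (hS' o) h).2.1
  have ha : ∀ i : M.J, (0 : ℚ) < M.a i := fun i => Nat.cast_pos.2 (H.ok.pos i)
  have hh : ∀ o j : M.J, C.hp o j = M.a j * (C.h j / M.a j - C.h o / M.a o) := fun o j => by
    have := (ha j).ne'
    simp only [Ch.hp, Mod.q, Mod.aa, Pi.sub_apply, Pi.smul_apply, smul_eq_mul, Int.cast_natCast]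
    field_simp
  refine R.fin {o // U.Top la o} _ (fun o => C.h o.1 / M.a o.1) (fun o => M.a o.1)
    (fun φ => φ.1) (fun φ => φ.2.1) (fun φ κ => EulK φ.2.2.1 (E φ.1) κ) _ hb
    (fun i => ha i.1) ?_ ?_ ?_
  · rintro ⟨o, j, Γ, h⟩ κ κ'
    exact eul_uniq h.fl.nrm
  · rintro ⟨o, j, Γ, h⟩
    obtain ⟨G', h', t, t'⟩ := R.swap f la l M U _ _ _ (M.v o.1).pl Γ.pl (M.v j.1).pl o.1 j.1
      H.cov h rfl
    have e1 := hE o (nc o j _ h)
    have e2 := hE j (nc j o _ h')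
    refine ⟨⟨j, o, G'.o, h'.pl⟩, rfl, rfl, fun κ κ' e => ⟨?_, ?_⟩⟩
    · exact R.edge f la c l β M U D _ _ _ (S o) Γ.pl (S j) G' o.1 j.1 H (hS' o) (hS' j) h h' t
        _ _ e1 e2 κ κ' (by simpa using e)
    · exact R.edge f la c l β M U D _ _ _ (S j) G' (S o) Γ.pl j.1 o.1 H (hS' j) (hS' o) h' h t'
        _ _ e2 e1 κ' κ (by simpa [add_comm] using e)
  · rintro ⟨o, j, Γ, h⟩
    have e1 := hE o (nc o j _ h)
    have z : E o = 0 → EulK Γ (E o) 0 := fun e m g _ => by simp [e]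
    by_cases hg : U.Big o.1
    · exact Or.inl (z (R.big f la c l β M U D _ (S o) o.1 H (hS' o) (nc o j _ h) hg _ e1))
    have s : Q3.Sit0 f la b β Q M C o.1 := ⟨hy, H.ok, o.2.1, (hA _).2 o.2.2⟩
    have k := R.P.ok f la b β Q M C o.1 (X o) (Y o) s (hX o) (hY o)
    obtain ⟨f2, f3⟩ := hF o.1 (X o) (Y o) s (hX o) (hY o)
    let j' : C.Nb o.1 := ⟨j.1, h.fl.isc.1, (hA _).2 j.2.2⟩
    rcases R.vx _ _ l (E o) k
      (R.P.small f la b β Q M C o.1 (X o) (Y o) s (hX o) (hY o) (not_not.1 (mt (hB _) hg))) ht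
      e1.kill e1.dv Γ j' (f3 Γ j' h) with g0 | ⟨g1, g2⟩ | ⟨G₂, j₂, g1, g2, g3⟩
    · exact Or.inl (z g0)
    · refine Or.inr (Or.inl ⟨?_, g2⟩)
      have g3 : 0 < C.hp o.1 j.1 := g1
      rw [hh] at g3
      exact sub_pos.1 ((mul_pos_iff_of_pos_left (ha _)).1 g3)
    · have h₂ := f2 G₂ j₂ g1
      refine Or.inr (Or.inr ⟨⟨o, ⟨j₂.1, h₂.t2⟩, G₂, h₂⟩, rfl, ?_, g3⟩)
      have g4 : 0 < C.hp o.1 j.1 + C.hp o.1 j₂.1 := g2
      rwa [hh, hh] at g4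

theorem snz_of (R : RowsN) : SNZ := by
  intro f la b β Q M' H hM' h0 h1
  obtain ⟨M, Dm, hM, hU⟩ := R.nice f la M' hM'
  refine ⟨M, Dm, hM, fun C o X Y s hX hY ht l Γ j g => ?_⟩
  obtain ⟨U, hU, hC⟩ := hU.resolve_left fun h => h C ht
  obtain ⟨D, hD⟩ := R.dat f la b β Q M U l H h0 hM hU
  have h := (R.flag f la b β Q M U C l hM hU ht (hC C ht).1 o X Y s hX hY).1 Γ j g
  exact (no_flagN R H ⟨R.E, hM, hU, hD⟩ h1 C ht (hC C ht).1 (hC C ht).2).false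
    ⟨⟨o, h.t1⟩, ⟨j.1, h.t2⟩, Γ, h⟩

end

end Pool.Agent.MP_ee8c61_ag.N3.Q3IZ
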