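import Pool.Agent.MP_ee8c61_ag.R3NC.TDefs
import Pool.Agent.MP_ee8c61_ag.R3IZ.RE2

/-!
The equation of order one on a double curve that is not complete.
-/

namespace Pool.Agent.MP_ee8c61_ag.N3.Q3IZ

open Pool.Agent.MP_ee8c61_ag.M3 Pool.Agent.MP_ee8c61_ag.Q3IZ Pool.Agent.MP_ee8c61_ag.Q3NC

set_option linter.unusedSectionVars false

variable [Base]

open H59 hiding pd
open M3 M3E M3RESID M3F
open M3J (ex br)
open M3Z (cmp Fl)

noncomputable section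

namespace REqNB

variable {L k : Type} [Field L] [Algebra ℂ L] [Field k] [Algebra ℂ k] {P : Pl (KK 3) L}
  {G : Pl L k} {X : VF (KK 3)} {f : Po 3} {M : Mod 3} {o j : M.J}

/-- The component along the first divisor lies in the local ring of the curve. -/
theorem lc {la : ℚ} {U : Cov M} (hU : U.OK la) (h : Fl f M P G o j) (t1 : U.Top la o)
    (t2 : U.Top la j) {r : U.κ}
    (ha : M.In (U.bb r) (cmp P G.o.O)) (ht : (U.t r)⁻¹ ∈ cmp P G.o.O)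
    (hX : ∀ l, U.L2 U.c0 r X l) :
    Lc (M.S.A (U.bb r)) (cmp P G.o.O) (X (M.η (U.bb r) o) / M.η (U.bb r) o) := by
  obtain ⟨l0, l1, l2, hl⟩ := h.labels ha
  have ut : Un (cmp P G.o.O) (U.t r) := ⟨hU.ac.ne r, ha _ (hU.ac.mem r), ht⟩
  obtain ⟨e, he⟩ := (M3L.mem_aw (hU.ac.mem r) (hU.ac.ne r)).1 (hX l0)
  have c0 : ∀ i, U.c0 i = ⌈U.P i⌉ := fun i => congrFun hU.cl i
  have top : ∀ i, U.Top la i → (M.kk + 1 - U.c0) i = 0 := fun i hi => by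
    have : ⌈U.P i⌉ = (M.k i : ℤ) + 1 := by
      rw [hi.2]
      exact_mod_cast Int.ceil_intCast (R := ℚ) ((M.k i : ℤ) + 1)
    simp [Mod.kk, c0, this]
  have hun := h.un_fl ha (M.kk + 1 - U.c0)
  rw [M3Z.fl_eq (top o t1) (top j t2)] at hun
  have hm : M.mon (U.bb r) (M.kk + 1 - U.c0) ∈ M.S.A (U.bb r) := h.bas.mon_mem _ _ fun i => by
    have : ⌈U.P i⌉ ≤ (M.k i : ℤ) + 1 := Int.ceil_le.2 (by
      simpa [Mod.nu] using hU.le i)
    simp only [Pi.zero_apply, Pi.sub_apply, Pi.add_apply, Pi.one_apply, Mod.kk, c0]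
    omega
  refine ⟨U.t r ^ e * M.mon (U.bb r) (M.kk + 1 - U.c0), mul_mem (pow_mem (hU.ac.mem r) e) hm,
    (ut.pow e).mul hun, ?_⟩
  rw [M3Z.Lb.un hl.h0] at he
  rw [Mod.η, M.S.η_some _ o l0 hl.h0, mul_assoc, mul_comm (M.mon _ _)]
  exact he

end REqNB

theorem rowEqNB : OfEqN := by
  intro hK f la c l β M U D L L' k _ _ _ _ _ _ S G S' G' o j hs hS hS' hF hF' hT e r he hr
  have h := hF.fl
  have h' := hF'.fl
  obtain ⟨-, -, -, -, -, -, hres⟩ := hK f la l β M U L k S G o j hs.cov hS hF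
  have ov := h.isc.2.1
  have ac := hs.cov.ac
  obtain ⟨ha, ht⟩ := (ac.gen r _ ov).1 hr
  have ha' := (hT.inn _).1 ha
  have hW : ∀ n, ∃ v u, S.P.Rs (D.X1 r n) v ∧ G.Rs v u ∧ (D.X1 r n = 0 → u = 0) := fun n => by
    by_cases h0 : D.X1 r n = 0
    · exact ⟨0, 0, h0 ▸ Pl.Rs.zero, Pl.Rs.zero, fun _ => rfl⟩
    · obtain ⟨v, u, h1, h2⟩ := (hres r hr).2 _ (hs.dx.x1 r n)
      exact ⟨v, u, h1, h2, fun h3 => absurd h3 h0⟩
  choose V W h1 h2 h3 using hW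
  refine ⟨W, (hs.dx.f1 r).imp fun N hN m hm => h3 m (hN m hm), fun n v v' ν ν' hR hR' hn hn' => ?_⟩
  have hx : xx 3 l ∈ cmp S.P G.o.O := ov (xp 3 l)
  have hs1 : sh (D.X1 r) n (xx 3 l) ∈ cmp S.P G.o.O ∧
      G.π (S.P.π (sh (D.X1 r) n (xx 3 l))) = sh W n (G.π (S.P.π (xx 3 l))) := by
    cases n with
    | zero => exact ⟨zero_mem _, by simp only [sh, Derivation.zero_apply, Pl.π_zero]⟩
    | succ n =>
      have e1 := (h1 n).2 _ hx.1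
      exact ⟨⟨(h1 n).ap hx.1, (show S.P.π (D.X1 r n (xx 3 l)) ∈ G.o.F 0 from
        e1 ▸ (h2 n).ap hx.2)⟩, (congrArg G.π e1).trans ((h2 n).2 _ hx.2)⟩
  obtain ⟨W0, hW, eW⟩ := RE2.split (X := D.X0 r n) h ha
  obtain ⟨m0, e0⟩ := RE2.unit hR hn hW
  obtain ⟨m1, e1⟩ := RE2.nor h ha hR hn
  have hc := REqNB.lc hs.cov h hF.t1 hF.t2 ha ht (hs.dx.x0 r n)
  have m2 := hc.mem' ha
  have e2 := (hT.lc _ ha _ hc).2.symm.trans (RE2.nor h' ha' hR' hn').2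
  obtain ⟨p, hp⟩ := hs.dx.e1 r n
  have e3 : S.P.π (ip 3 f) = 0 := by
    have := ((h.bas.gen_v o _ _).1 (h.bas.gen_f _)).2
    have h3 := h.ok.pos o
    rw [← h.po, Pi.neg_apply, neg_neg, Mod.aa] at this
    exact M3Z.pi_F1 (Or.inr (by omega))
  have nat : ∀ m : ℕ, (m : KK 3) ∈ cmp S.P G.o.O ∧ G.π (S.P.π m) = m := fun m =>
    ⟨natCast_mem _ m, by rw [M3Z.pi_nat, M3Z.pi_nat]⟩
  have m3 := mul_mem (nat (M.a o)).1 m2
  have m4 := mul_mem (nat (M.a j)).1 m1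
  have m5 := mul_mem (ov f) (ov p)
  have hc0 : (if n = 0 then algebraMap ℂ (KK 3) c else 0) = algebraMap ℂ (KK 3)
      (if n = 0 then c else 0) := by split_ifs <;> simp
  have hc1 : (if n = 0 then algebraMap ℂ k c else 0) = algebraMap ℂ k
      (if n = 0 then c else 0) := by split_ifs <;> simp
  rw [hc0] at hp
  rw [hc1, ← he _ _ (h2 n), ← hS.rd _ _ (h1 n), eq_sub_of_add_eq (eq_sub_of_add_eq hp), eW,
    M3Z.p2_sub (sub_mem (add_mem (M3Z.cst_cmp _) m5) (add_mem (add_mem m0 m3) m4)) hs1.1,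
    M3Z.p2_sub (add_mem (M3Z.cst_cmp _) m5) (add_mem (add_mem m0 m3) m4),
    M3Z.p2_add (M3Z.cst_cmp _) m5, M3Z.p2_add (add_mem m0 m3) m4, M3Z.p2_add m0 m3,
    M3Z.p2_mul (nat _).1 m2, M3Z.p2_mul (nat _).1 m1, M3Z.p2_mul (ov f) (ov p), M3Z.p2_cst,
    (nat _).2, (nat _).2, e0, e1, e2, e3, G.π_zero, hs1.2]
  ring

end

end Pool.Agent.MP_ee8c61_ag.N3.Q3IZ
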