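import Pool.Agent.MP_ee8c61_ag.R3NC.TDefs
import Pool.Agent.MP_ee8c61_ag.R3IZ.RSwap
import Pool.Agent.MP_ee8c61_ag.R3IZ.RE0

/-!
The twin of a flag on a curve that is not complete.
-/

namespace Pool.Agent.MP_ee8c61_ag.N3.Q3IZ

open Pool.Agent.MP_ee8c61_ag.M3 Pool.Agent.MP_ee8c61_ag.Q3IZ Pool.Agent.MP_ee8c61_ag.Q3NC

set_option linter.unusedSectionVars false

variable [Base]

open M3 M3E M3RESID M3F
open M3Z (cmp Fl)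

open RSwap in
theorem rowSwapNB : OfSwapN := by
  intro E f la l M U L L' k _ _ _ _ _ _ P G P' o j hU hF ho
  have h := hF.fl
  have B := h.bas.toBas1
  obtain ⟨V', hV, hs⟩ := twin E h.ok h.isc
  obtain ⟨Γ, rfl, hn⟩ := RIT.exists_dv (n := 2) h.ok B h.cv ho hV
  obtain ⟨b, hb⟩ := h.ok.cov _ h.isc.2.1
  obtain ⟨G', rfl, hπ⟩ := place (Γ := Γ) h ⟨h.ok, h.bas, h.der, h.cv, h.unr, ho, hn, hV⟩ hs hb
  replace hs : Same M (cmp P G.o.O) (cmp P' G'.o.O) := hs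
  exact ⟨G', ⟨⟨h.ok, h.bas, h.der, h.cv, h.unr, ho, hn, hV⟩, hF.t2, hF.t1, fun c =>
      (hs.2 b hb _ (sub_mem (h.ok.xx_mem b l) ((M.S.A b).algebraMap_mem c))).1 (hF.nc c)⟩,
    ⟨hs.1, fun a ha g hg => ⟨hs.lc ha hg, hπ g (lc_ch B ha hb hg)⟩,
      fun a ha g hg => hs.symm.lc ((hs.1 a).1 ha) hg⟩,
    ⟨hs.symm.1, fun a ha g hg => ⟨hs.symm.lc ha hg,
      (hπ g (lc_ch B ((hs.1 a).2 ha) hb (hs.symm.lc ha hg))).symm⟩,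
      fun a ha g hg => hs.lc ((hs.1 a).2 ha) hg⟩⟩

theorem rowTwNB : TTwN := by
  intro f la c l β M U D L L' k _ _ _ _ _ _ S G S' G' o j H hS hS' hF hF' hT
  obtain ⟨b, hb⟩ := H.ok.cov _ hF.fl.isc.2.1
  refine ⟨RE0.vol hF.fl hF'.fl hT hF.t1.1 hF.t2.1 hS.rd hS'.rd,
    (hT.lc b hb _ (Lc.of_mem (H.ok.xx_mem b l))).2, fun r h => ?_⟩
  obtain ⟨h1, h2⟩ := (H.cov.ac.gen r _ hF.fl.isc.2.1).1 h
  have h3 := (hT.inn _).1 h1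
  have ht := H.cov.ac.mem r
  have u : Un (cmp S.P G.o.O) (U.t r) := ⟨H.cov.ac.ne r, h1 _ ht, h2⟩
  have u' : Un (cmp S'.P G'.o.O) (U.t r) := M3Z.un_p2 (h3 _ ht) (by
    rw [(hT.lc _ h1 _ (Lc.of_mem ht)).2]
    exact M3Z.p2_ne u)
  exact (H.cov.ac.gen r _ hF'.fl.isc.2.1).2 ⟨h3, u'.2.2⟩

end Pool.Agent.MP_ee8c61_ag.N3.Q3IZ
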