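import Pool.Agent.MP_ee8c61_ag.R3NC.SDefs
import Pool.Agent.MP_ee8c61_ag.Q3IZ.RRul

/-! The Euler constant changes sign from one section to the other. -/

namespace Pool.Agent.MP_ee8c61_ag.Q3NC

open M3 M3RESID M3F Q3IZ

noncomputable section

theorem rowTwo : STwo := by
  intro L ι _ _ _ Z hZ t G₁ G₂ ht hv hne h1 h2 e1 e2 hall κ hκ
  obtain ⟨C', _, R⟩ := rowRul L ι { Z with v := 0 }
    ⟨hZ.fin, hZ.q0, hZ.ψ0, hZ.rat, hZ.m0, map_zero _, hZ.ne⟩ t G₁ G₂ ht hne h1 h2 e1 e2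
    (fun Γ h => (hall Γ h).imp_right fun h => ⟨h, 0, zero_mem _, fun g _ => by simp⟩)
    ⟨0, by simp [QD.X, M3J.ex_zero], fun g _ => by simp [QD.X, M3J.ex_zero]⟩
  have hA := RRul.ada R.rul
  have hR := M3H47.rl_of R.rul.tr R.rul.gen
  have hy := hR.y_ne
  have e := hA.exp hy Z.v
  rw [R.rul.mem Z.v hv, zero_smul, add_zero] at e
  generalize Z.v (C'.z 0) / C'.z 0 = φ at e
  have d0 : Z.d.δ (C'.th 0) = 0 := R.d0
  have h3 := hZ.dv
  rw [e, Z.d.smul, d0, mul_zero, zero_add] at h3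
  have h4 : φ ∈ Kz t := M3H47.ker_le hR _ hA.k0 (by rw [hA.y0]; exact hy) h3
  have h5 := hκ (-1) (C'.z 0) (Or.inr R.v2.ge)
  have h6 : φ + algebraMap ℂ L κ = 0 := by
    by_contra h
    have h7 := G₂.F_mul (h2.2 _ (inv_mem (add_mem h4 ((Kz t).algebraMap_mem κ)))) h5
    have h8 : (φ + algebraMap ℂ L κ)⁻¹ * (Z.v (C'.z 0) - algebraMap ℂ L κ * (-1 : ℤ) * C'.z 0) =
        C'.z 0 := by
      rw [e, Derivation.smul_apply, hA.y0, smul_eq_mul]
      push_cast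
      field_simp
      ring
    rw [h8] at h7
    have h9 := h7.resolve_left hy
    have := R.v2
    omega
  intro m g hg
  have h7 := G₁.F_mul (h1.2 _ h4) (RRul.eul0 hA hR h1 R.v1 m g hg)
  rw [zero_add] at h7
  have h8 : Z.v g - algebraMap ℂ L (-κ) * m * g = φ * (C'.th 0 g - m * g) := by
    rw [e, Derivation.smul_apply, smul_eq_mul, map_neg, eq_neg_of_add_eq_zero_left h6]
    ring
  rw [h8]
  exact h7

end

end Pool.Agent.MP_ee8c61_ag.Q3NC
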