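import Pool.Agent.MP_ee8c61_ag.Q3IZ.RDict
import Pool.Agent.MP_ee8c61_ag.Q3IZ.RFF
import Pool.Agent.MP_ee8c61_ag.M3F.LF

/-!
Closed fields with a parameter on a surface: reduction to a vertical field.
-/

namespace Pool.Agent.MP_ee8c61_ag.Q3NC.Sf

open M3 M3RESID M3F Q3IZ Pool.Agent.MP_cce4c9_lc.H87
open M3J (ex br LB)
open M3Z (F10 pi_congr pi_sub pi_F1 pi_neg)

noncomputable section

/-- Almost all terms vanish. -/
def Fs {A : Type} [Zero A] (v : ℕ → A) : Prop := ∃ N, ∀ k, N ≤ k → v k = 0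

/-- Multiplication by the parameter. -/
def sh {A : Type} [Zero A] (v : ℕ → A) : ℕ → A
  | 0 => 0
  | k + 1 => v k

/-- The constant polynomial. -/
def c0 {A : Type} [Zero A] (a : A) : ℕ → A
  | 0 => a
  | _ + 1 => 0

section Seq

variable {A : Type} [AddCommGroup A] {v w : ℕ → A}

theorem Fs.add (h : Fs v) (h' : Fs w) : Fs (v + w) := by
  obtain ⟨N, h⟩ := h
  obtain ⟨N', h'⟩ := h'
  exact ⟨N + N', fun k hk => by rw [Pi.add_apply, h k (by omega), h' k (by omega), add_zero]⟩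

theorem Fs.sub (h : Fs v) (h' : Fs w) : Fs (v - w) := by
  obtain ⟨N, h⟩ := h
  obtain ⟨N', h'⟩ := h'
  exact ⟨N + N', fun k hk => by rw [Pi.sub_apply, h k (by omega), h' k (by omega), sub_zero]⟩

theorem Fs.map {B : Type} [Zero B] (h : Fs v) {w : ℕ → B} (hw : ∀ k, v k = 0 → w k = 0) :
    Fs w := h.imp fun _ h k hk => hw k (h k hk)

/-- Downward induction. -/
theorem Fs.ind (h : Fs v) {p : ℕ → Prop} (h0 : ∀ k, v k = 0 → p k) (h1 : ∀ k, p (k + 1) → p k)
    (k : ℕ) : p k := by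
  obtain ⟨N, h⟩ := h
  by_cases hk : N ≤ k
  · exact h0 k (h k hk)
  exact Nat.decreasingInduction (n := N) (motive := fun k _ => p k) (fun k _ => h1 k)
    (h0 N (h N le_rfl)) (not_le.1 hk).le

end Seq

variable {L k : Type} [Field L] [Algebra ℂ L] [Field k] [Algebra ℂ k]

/-- The Hamiltonian field of `u` in the frame of `C`. -/
def hm (C : Co L 2) (u : L) : VF L := C.D 0 u • C.D 1 - C.D 1 u • C.D 0

theorem hm_ap (C : Co L 2) (u g : L) : hm C u g = br C u g := by simp [hm, br]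

theorem hm_fib (C : Co L 2) (u : L) : hm C u = -fib C u := by rw [hm, fib, neg_sub]

theorem br_anti (C : Co L 2) (g h : L) : br C g h = -br C h g := by
  simp only [br]
  ring

theorem hm_self (C : Co L 2) (u : L) : hm C u u = 0 := by simp [hm_fib, fib_self]

theorem hm_mul (C : Co L 2) {u : L} (hu : ∃ X : VF L, X u ≠ 0) {X : VF L} (hX : X u = 0) :
    ∃ t : L, X = t • hm C u := by
  obtain ⟨t, rfl⟩ := fib_mul C hu hX
  exact ⟨-t, by rw [hm_fib, neg_smul, smul_neg, neg_neg]⟩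

theorem hm_zero (C : Co L 2) {u : L} (hu : ∃ X : VF L, X u ≠ 0) {t : L} (h : t • hm C u = 0) :
    t = 0 := by
  obtain ⟨i, hi⟩ := fib_ne C hu
  have := DFunLike.congr_fun h (C.z i)
  rw [Derivation.smul_apply, hm_fib, Derivation.neg_apply, smul_eq_mul] at this
  exact (mul_eq_zero.1 this).resolve_right (neg_ne_zero.2 hi)

variable (d : Dv L) (C : Co L 2) (u : L)

theorem dv_hm (t : L) : d.δ (t • hm C u) + ex d C t u = 0 := by
  rw [M3J.dv2 d C, M3J.ap2 C (ex d C t), M3J.ex_z0, M3J.ex_z1]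
  simp only [Derivation.smul_apply, hm_fib, Derivation.neg_apply, fib_z0, fib_z1, smul_eq_mul,
    neg_neg, map_neg, Derivation.leibniz, mul_neg]
  rw [C.comm 0 1]
  ring

/-- The family is closed for the divergence twisted by the parameter times `du`. -/
def Cl (v : ℕ → VF L) : Prop := d.δ (v 0) = 0 ∧ ∀ k, d.δ (v (k + 1)) + v k u = 0

/-- The exact family with potential `T`. -/
def Bx (T : ℕ → L) : ℕ → VF L := fun k => ex d C (T k) + sh T k • hm C u

theorem Bx_zero (T : ℕ → L) : Bx d C u T 0 = ex d C (T 0) := by simp [Bx, sh]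

theorem Bx_succ (T : ℕ → L) (k : ℕ) :
    Bx d C u T (k + 1) = ex d C (T (k + 1)) + T k • hm C u := rfl

theorem Bx_add (T T' : ℕ → L) : Bx d C u (T + T') = Bx d C u T + Bx d C u T' := by
  funext k
  cases k with
  | zero => simp only [Pi.add_apply, Bx_zero, M3J.ex_add]
  | succ k =>
    simp only [Pi.add_apply, Bx_succ, M3J.ex_add, add_smul]
    abel

theorem Bx_sub (T T' : ℕ → L) : Bx d C u (T - T') = Bx d C u T - Bx d C u T' := by
  rw [eq_sub_iff_add_eq, ← Bx_add, sub_add_cancel]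

theorem cl_Bx (T : ℕ → L) : Cl d u (Bx d C u T) := by
  refine ⟨by rw [Bx_zero]; exact M3J.dv_Ex d (M3J.ex_mem _ _ _), fun k => ?_⟩
  rw [Bx_succ, map_add, M3J.dv_Ex d (M3J.ex_mem _ _ _), zero_add, Bx, Derivation.add_apply,
    Derivation.smul_apply, hm_self, smul_zero, add_zero, dv_hm]

variable {d C u}

theorem Cl.sub {v w : ℕ → VF L} (h : Cl d u v) (h' : Cl d u w) : Cl d u (v - w) :=
  ⟨by rw [Pi.sub_apply, map_sub, h.1, h'.1, sub_zero], fun k => by
    rw [Pi.sub_apply, Pi.sub_apply, map_sub, Derivation.sub_apply]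
    linear_combination h.2 k - h'.2 k⟩

/-- A closed family is a closed vertical field up to an exact family. -/
theorem red (C : Co L 2) (hu : ∃ X : VF L, X u ≠ 0) {v : ℕ → VF L} (hv : Fs v) (h : Cl d u v) :
    ∃ (E : VF L) (T : ℕ → L), E u = 0 ∧ d.δ E = 0 ∧ Fs T ∧ v = c0 E + Bx d C u T := by
  classical
  obtain ⟨N, hv⟩ := hv
  replace hv : ∀ k, N + 1 ≤ k → v k = 0 := fun k hk => hv k (by omega)
  induction N generalizing v with
  | zero =>
    refine ⟨v 0, 0, by simpa [hv 1 le_rfl] using h.2 0, h.1, ⟨0, fun _ _ => rfl⟩, ?_⟩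
    funext k
    cases k with
    | zero => simp [c0, Bx_zero, M3J.ex_zero]
    | succ k => simp [c0, Bx_succ, M3J.ex_zero, hv (k + 1) (by omega)]
  | succ N ih =>
    obtain ⟨t, ht⟩ := hm_mul C hu (X := v (N + 1))
      (by simpa [hv (N + 1 + 1) le_rfl] using h.2 (N + 1))
    obtain ⟨E, T, h1, h2, h3, h4⟩ := ih (h.sub (cl_Bx d C u (Pi.single N t))) fun k hk => by
      obtain ⟨k, rfl⟩ : ∃ j, k = j + 1 := ⟨k - 1, by omega⟩
      rw [Pi.sub_apply, Bx_succ, Pi.single_eq_of_ne (by omega), M3J.ex_zero, zero_add]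
      by_cases e : k = N
      · rw [e, Pi.single_eq_same, ht, sub_self]
      · rw [Pi.single_eq_of_ne e, hv _ (by omega), zero_smul, sub_zero]
    refine ⟨E, T + Pi.single N t, h1, h2,
      h3.add ⟨N + 1, fun k hk => Pi.single_eq_of_ne (by omega) _⟩, ?_⟩
    rw [Bx_add, ← add_assoc, ← h4, sub_add_cancel]

/-- An exact family that is constant vanishes. -/
theorem red_zero (hu : ∃ X : VF L, X u ≠ 0) {E : VF L} {T : ℕ → L} (hT : Fs T)
    (h : c0 E = Bx d C u T) : E = 0 := by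
  have h1 : T 0 = 0 := hT.ind (p := fun k => T k = 0) (fun _ e => e) (fun k e => by
    have := congrFun h (k + 1)
    rw [Bx_succ, e, M3J.ex_zero, zero_add] at this
    exact hm_zero C hu this.symm) 0
  have := congrFun h 0
  rwa [Bx_zero, h1, M3J.ex_zero] at this

theorem c0_sub {A : Type} [AddCommGroup A] (a b : A) : c0 (a - b) = c0 a - c0 b := by
  funext k
  cases k <;> simp [c0]

/-- The vertical field is unique. -/
theorem red_uniq (hu : ∃ X : VF L, X u ≠ 0) {E E' : VF L} {T T' S : ℕ → L} (hT : Fs T)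
    (hT' : Fs T') (hS : Fs S)
    (h : c0 E + Bx d C u T - (c0 E' + Bx d C u T') = Bx d C u S) : E = E' := by
  refine sub_eq_zero.1 (red_zero (d := d) (C := C) hu ((hS.sub hT).add hT') ?_)
  rw [c0_sub, Bx_add, Bx_sub, ← h]
  abel

section Log

variable {G : Pl L k} {e : Dv k}

/-- A logarithmic vertical field vanishes on a horizontal curve. -/
theorem vert_F1 {C' : Co L 2} (hA : C'.At G.o 0) {E : VF L} (h0 : E (C'.z 1) = 0)
    (h : E ∈ LV G.o 0) {g : L} (hg : g ∈ G.o.F 0) : E g ∈ G.o.F 1 := by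
  rw [M3J.ap2 C' E, h0, zero_mul, add_zero]
  exact F_mul0' (by simpa using ((M3J.mem_LV hA).1 h).1) (hA.D 0 g hg)

/-- The normal components of a logarithmic family along a horizontal curve of exponent zero. -/
theorem log (hf : FiniteDimensional (IntermediateField.adjoin ℂ (Set.range C.z)) L)
    (hπ : ∃ π, G.o.v π = 1) (hu : NC G.o u) (hE : Exp d G.o 0) (hR : G.RsD d e) {E : VF L}
    {T : ℕ → L} (h0 : E u = 0) (hT : Fs T) (hv : ∀ i, (c0 E + Bx d C u T) i ∈ LV G.o 0) :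
    ∃ (n : k) (w : ℕ → VF k), Nor G E n ∧ Fs w ∧ (∀ i, T i ∈ LB C G.o 0) ∧
      (∀ i, Lead C G (T i) (w i)) ∧
      ∀ i, Nor G ((c0 E + Bx d C u T) i) (c0 n i - (e.δ (w i) + sh w i (G.π u))) := by
  obtain ⟨x, hx⟩ := hπ
  obtain ⟨C', hz, hA⟩ := cv_at C hf hx hu.1 hu.2
  have e1 : C'.z 1 = u := by rw [hz]; rfl
  obtain ⟨D, hD⟩ := M3Z.exists_Rs G (hA.D_LV (j := 1) (by decide))
  have z0 := C'.ne 0
  have hB : ∀ i, T i ∈ LB C G.o 0 := hT.ind (fun i h => by rw [h]; exact zero_mem _) fun i h => by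
    have h1 := sub_mem (hv (i + 1)) (M3J.ex_LV' hA hE h)
    rw [Pi.add_apply, Bx_succ, c0, zero_add, add_sub_cancel_left] at h1
    have h2 := neg_mem ((M3J.mem_LV hA).1 h1).1
    rw [Derivation.smul_apply, hm_ap, br_anti, smul_eq_mul, mul_neg, neg_neg, ← e1] at h2
    exact (M3J.mem_LB hA).2 h2
  have hc : ∀ i, RDict.co C C' (T i) ∈ G.o.F 0 := fun i => by
    simpa [hA.vz, RDict.co] using F_div ((M3J.mem_LB hA).1 (hB i)) (C'.z 0)
  have hX : E ∈ LV G.o 0 := by
    have := sub_mem (hv 0) (M3J.ex_LV' hA hE (hB 0))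
    rwa [Pi.add_apply, Bx_zero, c0, add_sub_cancel_right] at this
  have hn : Nor G E (G.π (E (C'.z 0) / C'.z 0)) :=
    RDict.nor_of hA.vz hX (fun g hg => vert_F1 hA (e1 ▸ h0) hX hg) rfl
  refine ⟨_, fun i => G.π (RDict.co C C' (T i)) • D, hn,
    hT.map fun i h => by simp [h, RDict.co, G.π_zero], hB,
    fun i => RDict.lead_of hA hD (hc i), fun i => ?_⟩
  have h1 := RDict.nor_ex hA hD hE hR (hc i)
  cases i with
  | zero =>
    rw [Pi.add_apply, Bx_zero, c0, c0, sh, Derivation.zero_apply, add_zero, sub_eq_add_neg]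
    exact RDict.nor_add hn h1
  | succ i =>
    have h2 : T i • hm C u ∈ LV G.o 0 := by
      have h1 := sub_mem (hv (i + 1)) h1.1
      rwa [Pi.add_apply, Bx_succ, c0, zero_add, add_sub_cancel_left] at h1
    have h3 : Nor G (T i • hm C u) (-G.π (RDict.co C C' (T i))) :=
      RDict.nor_of hA.vz h2 (fun g hg => vert_F1 hA (by simp [e1, hm_self]) h2 hg) (by
        rw [← pi_neg (hc i), Derivation.smul_apply, hm_ap, br_anti, RDict.co, e1, smul_eq_mul,
          mul_neg, neg_div])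
    rw [Pi.add_apply, Bx_succ, c0, c0, zero_add, zero_sub, neg_add, sh, Derivation.smul_apply,
      ← e1, RDict.D_z hA hD, smul_eq_mul, mul_one, e1]
    exact RDict.nor_add h1 h3

/-- On a curve a constant that is exact with the parameter vanishes. -/
theorem top (hk : IsFF ℂ k) {y : k} (hy : y ∉ Set.range (algebraMap ℂ k)) {W : ℕ → VF k}
    (hW : Fs W) {a : k} (h : ∀ i, c0 a i = e.δ (W i) + sh W i y) : a = 0 := by
  have h1 : W 0 = 0 := hW.ind (p := fun i => W i = 0) (fun _ x => x) (fun i x => by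
    have := h (i + 1)
    rw [c0, x, map_zero, zero_add, sh] at this
    exact by_contra fun n => M3C.RDer.ne_zero hk _ n y hy this.symm) 0
  simpa [c0, sh, h1] using h 0

theorem pi_nc {g : L} (hg : NC G.o g) : G.π g ∉ Set.range (algebraMap ℂ k) := fun ⟨c, hc⟩ =>
  hg.2 c ((G.ker _ (sub_mem hg.1 (cst_F _ c))).1 (by
    rw [pi_sub hg.1 (cst_F _ c), M3Z.pi_cst, hc, sub_self]))

end Log

end

end Pool.Agent.MP_ee8c61_ag.Q3NC.Sf
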